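import Pool.Agent.Run7.h6.ZW.Defs

/-!
# The local Hankel determinant is nonzero (task H5; after `H343Y.H5`)

Everything is computed modulo `101`; the certificate is the inverse matrix.
-/

set_option autoImplicit false

open Polynomial Pool.Agent.H337R2

namespace Pool.Agent.Run7.h6.ZW

namespace H5

theorem prime101 : Nat.Prime 101 := by norm_num

local instance fact101 : Fact (Nat.Prime 101) := ⟨prime101⟩

/-- `x` is integral at `101` with residue `a` -/
def Rd (x : ℚ) (a : ZMod 101) : Prop := ∃ m : ℤ, (m : ZMod 101) = a ∧ padicNorm 101 (x - m) < 1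

theorem Rd.le_one {x : ℚ} {a : ZMod 101} (h : Rd x a) : padicNorm 101 x ≤ 1 := by
  obtain ⟨m, -, h2⟩ := h
  have e : x = (x - m) + m := by ring
  rw [e]
  exact (padicNorm.nonarchimedean).trans (max_le h2.le (padicNorm.of_int m))

theorem Rd.int (m : ℤ) : Rd (m : ℚ) (m : ZMod 101) := ⟨m, rfl, by simp⟩

theorem Rd.nat (m : ℕ) : Rd (m : ℚ) (m : ZMod 101) := by
  have := Rd.int (m : ℤ)
  push_cast at this
  exact this

theorem Rd.zero : Rd 0 0 := by
  have := Rd.int 0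
  push_cast at this
  exact this

theorem Rd.one : Rd 1 1 := by
  have := Rd.int 1
  push_cast at this
  exact this

theorem Rd.add {x y : ℚ} {a b : ZMod 101} (h : Rd x a) (h' : Rd y b) : Rd (x + y) (a + b) := by
  obtain ⟨m, h1, h2⟩ := h
  obtain ⟨m', h1', h2'⟩ := h'
  refine ⟨m + m', by push_cast; rw [h1, h1'], ?_⟩
  have e : x + y - ((m + m' : ℤ) : ℚ) = (x - m) + (y - m') := by push_cast; ring
  rw [e]
  exact (padicNorm.nonarchimedean).trans_lt (max_lt h2 h2')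

theorem Rd.neg {x : ℚ} {a : ZMod 101} (h : Rd x a) : Rd (-x) (-a) := by
  obtain ⟨m, h1, h2⟩ := h
  refine ⟨-m, by push_cast; rw [h1], ?_⟩
  have e : -x - ((-m : ℤ) : ℚ) = -(x - m) := by push_cast; ring
  rw [e, padicNorm.neg]
  exact h2

theorem Rd.sub {x y : ℚ} {a b : ZMod 101} (h : Rd x a) (h' : Rd y b) : Rd (x - y) (a - b) := by
  rw [sub_eq_add_neg, sub_eq_add_neg]
  exact h.add h'.neg

theorem Rd.mul {x y : ℚ} {a b : ZMod 101} (h : Rd x a) (h' : Rd y b) : Rd (x * y) (a * b) := by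
  have hy := h'.le_one
  obtain ⟨m, h1, h2⟩ := h
  obtain ⟨m', h1', h2'⟩ := h'
  refine ⟨m * m', by push_cast; rw [h1, h1'], ?_⟩
  have e : x * y - ((m * m' : ℤ) : ℚ) = (x - m) * y + m * (y - m') := by push_cast; ring
  rw [e]
  refine (padicNorm.nonarchimedean).trans_lt (max_lt ?_ ?_)
  · rw [padicNorm.mul]
    exact mul_lt_one_of_nonneg_of_lt_one_left (padicNorm.nonneg _) h2 hy
  · rw [padicNorm.mul]
    exact mul_lt_one_of_nonneg_of_lt_one_right (padicNorm.of_int m) (padicNorm.nonneg _) h2'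

theorem Rd.pow {x : ℚ} {a : ZMod 101} (h : Rd x a) (n : ℕ) : Rd (x ^ n) (a ^ n) := by
  induction n with
  | zero => simpa using Rd.one
  | succ n ih => rw [pow_succ, pow_succ]; exact ih.mul h

theorem Rd.sum {ι : Type*} (s : Finset ι) (f : ι → ℚ) (g : ι → ZMod 101)
    (h : ∀ i ∈ s, Rd (f i) (g i)) : Rd (∑ i ∈ s, f i) (∑ i ∈ s, g i) := by
  classical
  induction s using Finset.induction_on with
  | empty => simpa using Rd.zero
  | insert a s ha ih =>
    rw [Finset.sum_insert ha, Finset.sum_insert ha]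
    exact (h a (Finset.mem_insert_self _ _)).add
      (ih fun i hi => h i (Finset.mem_insert_of_mem hi))

theorem Rd.prod {ι : Type*} (s : Finset ι) (f : ι → ℚ) (g : ι → ZMod 101)
    (h : ∀ i ∈ s, Rd (f i) (g i)) : Rd (∏ i ∈ s, f i) (∏ i ∈ s, g i) := by
  classical
  induction s using Finset.induction_on with
  | empty => simpa using Rd.one
  | insert a s ha ih =>
    rw [Finset.prod_insert ha, Finset.prod_insert ha]
    exact (h a (Finset.mem_insert_self _ _)).mul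
      (ih fun i hi => h i (Finset.mem_insert_of_mem hi))

theorem Rd.det {n : ℕ} (M : Matrix (Fin n) (Fin n) ℚ) (A : Matrix (Fin n) (Fin n) (ZMod 101))
    (h : ∀ i j, Rd (M i j) (A i j)) : Rd M.det A.det := by
  rw [Matrix.det_apply', Matrix.det_apply']
  apply Rd.sum
  intro σ _
  apply Rd.mul (Rd.int _)
  apply Rd.prod
  intro i _
  exact h _ _

theorem zmod_zero (m : ℤ) : ((m : ZMod 101) = 0) ↔ padicNorm 101 (m : ℚ) < 1 := by
  rw [padicNorm.int_lt_one_iff, ZMod.intCast_zmod_eq_zero_iff_dvd]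

theorem Rd.ne_zero {x : ℚ} {a : ZMod 101} (h : Rd x a) (ha : a ≠ 0) : x ≠ 0 := by
  rintro rfl
  obtain ⟨m, h1, h2⟩ := h
  apply ha
  rw [← h1, zmod_zero]
  rwa [zero_sub, padicNorm.neg] at h2

theorem Rd.inv {x : ℚ} {a b : ZMod 101} (h : Rd x a) (hab : a * b = 1) : Rd x⁻¹ b := by
  have hx0 : x ≠ 0 := h.ne_zero (by rintro rfl; simp at hab)
  obtain ⟨m, h1, h2⟩ := h
  obtain ⟨m', h1'⟩ := ZMod.intCast_surjective b
  have hm : ((m : ZMod 101)) ≠ 0 := by
    rw [h1]; rintro rfl; simp at hab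
  have hm1 : padicNorm 101 (m : ℚ) = 1 := by
    rw [padicNorm.int_eq_one_iff]
    intro hd
    exact hm ((ZMod.intCast_zmod_eq_zero_iff_dvd m 101).2 hd)
  have hx1 : padicNorm 101 x = 1 := by
    have e : x = (x - m) + m := by ring
    rw [e, padicNorm.add_eq_max_of_ne (by rw [hm1]; exact h2.ne), hm1]
    exact max_eq_right h2.le
  refine ⟨m', h1', ?_⟩
  have e : x⁻¹ - m' = (((1 - m * m' : ℤ) : ℚ) + m' * ((m : ℚ) - x)) / x := by
    push_cast; field_simp; ring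
  rw [e, padicNorm.div, hx1, div_one]
  refine (padicNorm.nonarchimedean).trans_lt (max_lt ?_ ?_)
  · rw [← zmod_zero]
    push_cast
    rw [h1, h1', hab, sub_self]
  · rw [padicNorm.mul, ← padicNorm.neg ((m : ℚ) - x), neg_sub]
    exact mul_lt_one_of_nonneg_of_lt_one_right (padicNorm.of_int m') (padicNorm.nonneg _) h2

/-! ### lists modulo 101 -/

/-- multiplication by `X + c`, with carry -/
def mulS (c : ℕ) : ℕ → List ℕ → List ℕ
  | _, [] => []
  | prev, a :: l => ((prev + c * a) % 101) :: mulS c a l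

/-- division by `X + a`, where `a' = 1 / a`, with carry -/
def divS (a' : ℕ) : ℕ → List ℕ → List ℕ
  | _, [] => []
  | prev, x :: l => ((x + (101 - prev)) * a' % 101) :: divS a' ((x + (101 - prev)) * a' % 101) l

theorem mulS_length (c : ℕ) (l : List ℕ) : ∀ prev, (mulS c prev l).length = l.length := by
  induction l with
  | nil => intro _; rfl
  | cons a l ih => intro prev; simp [mulS, ih]

theorem divS_length (c : ℕ) (l : List ℕ) : ∀ prev, (divS c prev l).length = l.length := by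
  induction l with
  | nil => intro _; rfl
  | cons a l ih => intro prev; simp [divS, ih]

theorem mulS_spec (c : ℕ) (c' : ℚ) (hc : Rd c' (c : ZMod 101)) (l : List ℕ) : ∀ (prev : ℕ) (x : ℚ)
    (f : ℕ → ℚ), Rd x (prev : ZMod 101) →
    (∀ d < l.length, Rd (f d) ((l.getD d 0 : ℕ) : ZMod 101)) →
    ((0 < l.length → Rd (x + c' * f 0) (((mulS c prev l).getD 0 0 : ℕ) : ZMod 101)) ∧
      ∀ d, d + 1 < l.length → Rd (f d + c' * f (d + 1))
        (((mulS c prev l).getD (d + 1) 0 : ℕ) : ZMod 101)) := by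
  induction l with
  | nil =>
    intro prev x f _ _
    refine ⟨fun h => absurd h (by simp), fun d h => absurd h (by simp)⟩
  | cons a l ih =>
    intro prev x f hx hf
    have h0 : Rd (f 0) (a : ZMod 101) := by
      have := hf 0 (by simp)
      simpa using this
    have hih := ih a (f 0) (fun d => f (d + 1)) h0 (fun d hd => by
      have := hf (d + 1) (by simpa using hd)
      simpa using this)
    refine ⟨fun _ => ?_, fun d hd => ?_⟩
    · have e : (((mulS c prev (a :: l)).getD 0 0 : ℕ) : ZMod 101) =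
          (prev : ZMod 101) + (c : ZMod 101) * (a : ZMod 101) := by
        simp only [mulS, List.getD_cons_zero, ZMod.natCast_mod]
        push_cast
        rfl
      rw [e]
      exact hx.add (hc.mul h0)
    · have e : (mulS c prev (a :: l)).getD (d + 1) 0 = (mulS c a l).getD d 0 := by
        simp only [mulS, List.getD_cons_succ]
      rw [e]
      cases d with
      | zero => exact hih.1 (by simpa using hd)
      | succ d => exact hih.2 d (by simpa using hd)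

theorem divS_spec (c : ℕ) (c' : ℚ) (hc : Rd c' (c : ZMod 101)) (l : List ℕ) : ∀ (prev : ℕ) (x : ℚ)
    (f g : ℕ → ℚ), prev ≤ 101 → Rd x (prev : ZMod 101) →
    (∀ d < l.length, Rd (f d) ((l.getD d 0 : ℕ) : ZMod 101)) →
    (g 0 = (f 0 - x) * c') → (∀ d, g (d + 1) = (f (d + 1) - g d) * c') →
    ∀ d, d < l.length → Rd (g d) (((divS c prev l).getD d 0 : ℕ) : ZMod 101) := by
  induction l with
  | nil =>
    intro prev x f g _ _ _ _ _ d h
    exact absurd h (by simp)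
  | cons a l ih =>
    intro prev x f g hp hx hf hg0 hg d hd
    have h0 : Rd (f 0) (a : ZMod 101) := by
      have := hf 0 (by simp)
      simpa using this
    have hz : ((101 : ℕ) : ZMod 101) = 0 := ZMod.natCast_self 101
    have h1 : Rd (g 0) ((((a + (101 - prev)) * c % 101 : ℕ)) : ZMod 101) := by
      rw [ZMod.natCast_mod, Nat.cast_mul, Nat.cast_add, Nat.cast_sub hp, hz, hg0]
      have := (h0.sub hx).mul hc
      rw [zero_sub, ← sub_eq_add_neg]
      exact this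
    cases d with
    | zero =>
      simp only [divS, List.getD_cons_zero]
      exact h1
    | succ d =>
      simp only [divS, List.getD_cons_succ]
      exact ih _ (g 0) (fun d => f (d + 1)) (fun d => g (d + 1)) (Nat.mod_lt _ (by norm_num)).le h1
        (fun d hd => by
          have := hf (d + 1) (by simpa using hd)
          simpa using this) (hg 0) (fun d => hg (d + 1)) d (by simpa using hd)

/-- `l` is the list of the first ten coefficients of `f` modulo `101` -/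
def Rp (f : PowerSeries ℚ) (l : List ℕ) : Prop :=
  l.length = 10 ∧ ∀ d < 10, Rd (PowerSeries.coeff d f) ((l.getD d 0 : ℕ) : ZMod 101)

theorem Rp.mulS {f : PowerSeries ℚ} {l : List ℕ} (h : Rp f l) {c' : ℚ} {c : ℕ}
    (hc : Rd c' (c : ZMod 101)) :
    Rp (f * (PowerSeries.X + PowerSeries.C c')) (mulS c 0 l) := by
  refine ⟨by rw [mulS_length, h.1], ?_⟩
  have key := mulS_spec c c' hc l 0 0 (fun d => PowerSeries.coeff d f)
    (by simpa using Rd.zero) (fun d hd => h.2 d (by rw [h.1] at hd; exact hd))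
  intro d hd
  rw [mul_add, map_add, PowerSeries.coeff_mul_C]
  cases d with
  | zero =>
    have := key.1 (by rw [h.1]; norm_num)
    rw [PowerSeries.coeff_zero_mul_X, mul_comm]
    exact this
  | succ d =>
    have := key.2 d (by rw [h.1]; exact hd)
    rw [PowerSeries.coeff_succ_mul_X, mul_comm (PowerSeries.coeff (d + 1) f)]
    exact this

theorem Rp.divS {f : PowerSeries ℚ} {l : List ℕ} (h : Rp f l) {a : ℚ} (ha : a ≠ 0) {c : ℕ}
    (hc : Rd a⁻¹ (c : ZMod 101)) :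
    Rp (f * iv a) (divS c 0 l) := by
  refine ⟨by rw [divS_length, h.1], ?_⟩
  have hg : (f * iv a) * (PowerSeries.X + PowerSeries.C a) = f := by
    rw [mul_assoc, mul_comm (iv a), lin_mul_iv ha, mul_one]
  intro d hd
  refine divS_spec c a⁻¹ hc l 0 0 (fun d => PowerSeries.coeff d f)
    (fun d => PowerSeries.coeff d (f * iv a)) (by norm_num)
    (by simpa using Rd.zero) (fun d hd => h.2 d (by rw [h.1] at hd; exact hd)) ?_ ?_ d
    (by rw [h.1]; exact hd)
  · have := congrArg (PowerSeries.coeff 0) hg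
    rw [mul_add, map_add, PowerSeries.coeff_mul_C, PowerSeries.coeff_zero_mul_X] at this
    rw [← this]
    field_simp
    ring
  · intro d
    have := congrArg (PowerSeries.coeff (d + 1)) hg
    rw [mul_add, map_add, PowerSeries.coeff_mul_C, PowerSeries.coeff_succ_mul_X] at this
    rw [← this]
    field_simp
    ring

/-- iteration -/
def it (f : List ℕ → List ℕ) : ℕ → List ℕ → List ℕ
  | 0, l => l
  | n + 1, l => it f n (f l)

theorem Rp.mulS_pow {c' : ℚ} {c : ℕ} (hc : Rd c' (c : ZMod 101)) (n : ℕ) :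
    ∀ {f : PowerSeries ℚ} {l : List ℕ}, Rp f l →
    Rp (f * (PowerSeries.X + PowerSeries.C c') ^ n) (it (H5.mulS c 0) n l) := by
  induction n with
  | zero => intro f l h; simpa [it] using h
  | succ n ih =>
    intro f l h
    rw [pow_succ', ← mul_assoc]
    exact ih (h.mulS hc)

theorem Rp.divS_pow {a : ℚ} (ha : a ≠ 0) {c : ℕ} (hc : Rd a⁻¹ (c : ZMod 101)) (n : ℕ) :
    ∀ {f : PowerSeries ℚ} {l : List ℕ}, Rp f l →
    Rp (f * iv a ^ n) (it (H5.divS c 0) n l) := by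
  induction n with
  | zero => intro f l h; simpa [it] using h
  | succ n ih =>
    intro f l h
    rw [pow_succ', ← mul_assoc]
    exact ih (h.divS ha hc)

/-- inverse modulo 101 -/
def iv101 (k : ℕ) : ℕ := k ^ 99 % 101

theorem iv101_spec : ∀ k < 120, k ≠ 0 → k ≠ 101 → k * iv101 k % 101 = 1 := by
  decide +kernel

theorem iv101_mul {k : ℕ} (h : k < 120) (h0 : k ≠ 0) (h1 : k ≠ 101) :
    (k : ZMod 101) * (iv101 k : ZMod 101) = 1 := by
  have := congrArg (fun z : ℕ => (z : ZMod 101)) (iv101_spec k h h0 h1)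
  simp only [ZMod.natCast_mod, Nat.cast_mul, Nat.cast_one] at this
  exact this

/-- the other poles -/
def bs (j : ℕ) : List ℕ := (List.range' 3 10).filter (fun b => b ≠ j)

/-- the base list -/
def bl (j : ℕ) : List ℕ :=
  (bs j).foldl (fun l b => it (divS (iv101 (101 + b - j)) 0) (od b) l)
    (it (mulS (116 - j) 0) 5 (it (mulS (115 - j) 0) 5 (it (mulS (102 - j) 0) 5
      (it (mulS (101 - j) 0) 5 [1, 0, 0, 0, 0, 0, 0, 0, 0, 0]))))

/-- the base series -/
noncomputable def bser (j : ℕ) : PowerSeries ℚ :=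
  ((PowerSeries.X + PowerSeries.C (-(j : ℚ))) * (PowerSeries.X + PowerSeries.C (1 - (j : ℚ))) *
    (PowerSeries.X + PowerSeries.C (14 - (j : ℚ))) * (PowerSeries.X + PowerSeries.C (15 - (j : ℚ)))) ^ 5 *
  (∏ b ∈ (Finset.Icc 3 12).erase j, iv ((b : ℚ) - j) ^ od b)

theorem ser_eq (j e : ℕ) : ser j e =
    bser j * (PowerSeries.X + PowerSeries.C (-(j : ℚ))) ^ e := rfl

theorem rd_shift (j r c : ℕ) (hc : c = 101 + r) (hj : j ≤ 12) :
    Rd ((r : ℚ) - (j : ℚ)) ((c - j : ℕ) : ZMod 101) := by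
  have h := Rd.int ((r : ℤ) - (j : ℤ))
  have e : (((r : ℤ) - (j : ℤ) : ℤ) : ZMod 101) = ((c - j : ℕ) : ZMod 101) := by
    rw [Nat.cast_sub (by omega), hc, Nat.cast_add, ZMod.natCast_self]
    push_cast
    ring
  rw [e] at h
  push_cast at h
  exact h

theorem fold_rep (j : ℕ) (hj : j ≤ 12) (bl : List ℕ) : ∀ (f : PowerSeries ℚ) (l : List ℕ),
    (∀ b ∈ bl, b ≠ j ∧ b ≤ 12) → Rp f l →
    Rp (f * (bl.map (fun b : ℕ => iv ((b : ℚ) - j) ^ od b)).prod)
      (bl.foldl (fun l b => it (divS (iv101 (101 + b - j)) 0) (od b) l) l) := by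
  induction bl with
  | nil => intro f l _ h; simpa using h
  | cons b bl ih =>
    intro f l hb h
    rw [List.map_cons, List.prod_cons, List.foldl_cons, ← mul_assoc]
    apply ih _ _ (fun b' hb' => hb b' (List.mem_cons_of_mem _ hb'))
    obtain ⟨h1, h2⟩ := hb b (List.mem_cons_self)
    have hne : (b : ℚ) - (j : ℚ) ≠ 0 := by
      rw [sub_ne_zero]
      exact_mod_cast h1
    apply Rp.divS_pow hne _ (od b) h
    exact (rd_shift j b (101 + b) rfl hj).inv (iv101_mul (by omega) (by omega) (by omega))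

theorem bser_rep (j : ℕ) (h3 : 3 ≤ j) (hj : j ≤ 12) : Rp (bser j) (bl j) := by
  have h0 : Rp (1 : PowerSeries ℚ) [1, 0, 0, 0, 0, 0, 0, 0, 0, 0] := by
    refine ⟨rfl, ?_⟩
    intro d hd
    rw [PowerSeries.coeff_one]
    interval_cases d <;> simp [Rd.one, Rd.zero]
  have h1 := Rp.mulS_pow (rd_shift j 0 101 rfl hj) 5 h0
  have h2 := Rp.mulS_pow (rd_shift j 1 102 rfl hj) 5 h1
  have h4 := Rp.mulS_pow (rd_shift j 14 115 rfl hj) 5 h2
  have h5 := Rp.mulS_pow (rd_shift j 15 116 rfl hj) 5 h4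
  have h6 := fold_rep j hj (bs j) _ _ (by
    intro b hb
    unfold bs at hb
    rw [List.mem_filter, List.mem_range'_1] at hb
    refine ⟨by simpa using hb.2, by omega⟩) h5
  have e1 : bser j = 1 * (PowerSeries.X + PowerSeries.C (((0 : ℕ) : ℚ) - (j : ℚ))) ^ 5 *
      (PowerSeries.X + PowerSeries.C (((1 : ℕ) : ℚ) - (j : ℚ))) ^ 5 *
      (PowerSeries.X + PowerSeries.C (((14 : ℕ) : ℚ) - (j : ℚ))) ^ 5 *
      (PowerSeries.X + PowerSeries.C (((15 : ℕ) : ℚ) - (j : ℚ))) ^ 5 *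
      ((bs j).map (fun b : ℕ => iv ((b : ℚ) - j) ^ od b)).prod := by
    have e2 : ((bs j).map (fun b : ℕ => iv ((b : ℚ) - j) ^ od b)).prod =
        ∏ b ∈ (Finset.Icc 3 12).erase j, iv ((b : ℚ) - j) ^ od b := by
      have e3 : (Finset.Icc 3 12).erase j = (bs j).toFinset := by
        ext b
        unfold bs
        rw [Finset.mem_erase, Finset.mem_Icc, List.mem_toFinset, List.mem_filter,
          List.mem_range'_1]
        simp only [decide_eq_true_eq, ne_eq]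
        omega
      rw [e3, List.prod_toFinset]
      unfold bs
      exact (List.nodup_range').filter _
    rw [e2]
    unfold bser
    rw [one_mul, mul_pow, mul_pow, mul_pow]
    push_cast
    rw [zero_sub]
  rw [e1]
  exact h6

theorem ser_rep (j : ℕ) (h3 : 3 ≤ j) (hj : j ≤ 12) (e : ℕ) :
    Rp (ser j e) (it (mulS (101 - j) 0) e (bl j)) := by
  rw [ser_eq]
  have := rd_shift j 0 101 rfl hj
  rw [Nat.cast_zero, zero_sub] at this
  exact Rp.mulS_pow this e (bser_rep j h3 hj)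

/-! ### weights -/

/-- harmonic sums -/
def hsm (e n : ℕ) : ℕ := ((List.range n).map (fun l => (iv101 (l + 1)) ^ e)).sum

/-- sign -/
def sg (d : ℕ) : ℕ := if d % 2 = 1 then 1 else 100

/-- weights -/
def wl (j : ℕ) : List ℕ := (List.range (od j)).map (fun d =>
  (Nat.choose (od j + 3 - d) 4 *
    (hsm (od j + 4 - d) (j - 2) + sg d * hsm (od j + 4 - d) (13 - j))) % 101)

theorem od_cases (j : ℕ) : od j = 6 ∨ od j = 10 := by
  unfold od
  split_ifs <;> simp

theorem wl_length (j : ℕ) : (wl j).length = od j := by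
  unfold wl
  rw [List.length_map, List.length_range]

theorem sum_range_list {R : Type*} [Semiring R] (f : ℕ → R) (n : ℕ) :
    ((List.range n).map f).sum = ∑ m ∈ Finset.range n, f m := by
  induction n with
  | zero => simp
  | succ n ih => rw [List.range_succ, List.map_append, List.sum_append, ih, Finset.sum_range_succ]; simp

theorem hs_rd (e n : ℕ) (hn : n < 100) : Rd (hs e n) ((hsm e n : ℕ) : ZMod 101) := by
  unfold hs hsm
  rw [sum_range_list, Nat.cast_sum]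
  apply Rd.sum
  intro l hl
  rw [Finset.mem_range] at hl
  rw [one_div, ← inv_pow, Nat.cast_pow]
  apply Rd.pow
  apply Rd.inv (a := ((l + 1 : ℕ) : ZMod 101))
  · have := Rd.nat (l + 1)
    rw [Nat.cast_add, Nat.cast_one] at this
    exact this
  · exact iv101_mul (by omega) (by omega) (by omega)

theorem wl_rd (j d : ℕ) (h3 : 3 ≤ j) (hj : j ≤ 12) (hd : d < od j) :
    Rd (((Nat.choose (od j + 3 - d) 4 : ℕ) : ℚ) *
      (hs (od j + 4 - d) (j - 2) + (-1) ^ (od j + 1 - d) * hs (od j + 4 - d) (13 - j)))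
      (((wl j).getD d 0 : ℕ) : ZMod 101) := by
  have e1 : (wl j).getD d 0 =
      (Nat.choose (od j + 3 - d) 4 *
        (hsm (od j + 4 - d) (j - 2) + sg d * hsm (od j + 4 - d) (13 - j))) % 101 := by
    unfold wl
    rw [List.getD_eq_getElem?_getD, List.getElem?_map, List.getElem?_range hd]
    rfl
  rw [e1, ZMod.natCast_mod, Nat.cast_mul, Nat.cast_add, Nat.cast_mul]
  refine (Rd.nat _).mul ((hs_rd _ _ (by omega)).add (Rd.mul ?_ (hs_rd _ _ (by omega))))
  have ho := od_cases j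
  unfold sg
  split_ifs with h
  · have : Even (od j + 1 - d) := by
      rw [Nat.even_iff]; omega
    rw [this.neg_one_pow, Nat.cast_one]
    exact Rd.one
  · have : Odd (od j + 1 - d) := by
      rw [Nat.odd_iff]; omega
    rw [this.neg_one_pow]
    have h100 : (((100 : ℕ)) : ZMod 101) = -1 := by decide
    rw [h100]
    exact Rd.one.neg

/-- dot product -/
def dot : List ℕ → List ℕ → ℕ
  | a :: l, b :: m => a * b + dot l m
  | _, _ => 0

theorem dot_eq (m : List ℕ) : ∀ l : List ℕ,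
    dot l m = ∑ k ∈ Finset.range m.length, l.getD k 0 * m.getD k 0 := by
  induction m with
  | nil =>
    intro l
    cases l <;> simp [dot]
  | cons b m ih =>
    intro l
    cases l with
    | nil => simp [dot]
    | cons a l =>
      rw [dot, ih, List.length_cons, Finset.sum_range_succ']
      simp only [List.getD_cons_succ, List.getD_cons_zero]
      rw [add_comm]

/-- values of the functional at the pole `j` -/
def run (c : ℕ) (w : List ℕ) : ℕ → List ℕ → List ℕ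
  | 0, _ => []
  | n + 1, l => (dot w l) % 101 :: run c w n (mulS c 0 l)

theorem run_getD (c : ℕ) (w : List ℕ) (n : ℕ) : ∀ (l : List ℕ) (e : ℕ), e < n →
    (run c w n l).getD e 0 = dot w (it (mulS c 0) e l) % 101 := by
  induction n with
  | zero => intro l e h; exact absurd h (Nat.not_lt_zero _)
  | succ n ih =>
    intro l e h
    cases e with
    | zero => simp [run, it]
    | succ e =>
      rw [run, List.getD_cons_succ, ih _ e (by omega)]
      rfl

/-- values of the functional at the pole `j` -/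
def Rl (j : ℕ) : List ℕ := run (101 - j) (wl j) 71 (bl j)

theorem inner_rd (j e : ℕ) (h3 : 3 ≤ j) (hj : j ≤ 12) (he : e < 71) :
    Rd (∑ i ∈ Finset.Icc 1 (od j), ((Nat.choose (i + 3) 4 : ℕ) : ℚ) *
      PowerSeries.coeff (od j - i) (ser j e) * (hs (i + 4) (j - 2) + (-1) ^ (i + 1) * hs (i + 4) (13 - j)))
      (((Rl j).getD e 0 : ℕ) : ZMod 101) := by
  have hr := ser_rep j h3 hj e
  have ho := od_cases j
  have e1 : ∑ i ∈ Finset.Icc 1 (od j), ((Nat.choose (i + 3) 4 : ℕ) : ℚ) *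
      PowerSeries.coeff (od j - i) (ser j e) * (hs (i + 4) (j - 2) + (-1) ^ (i + 1) * hs (i + 4) (13 - j)) =
      ∑ d ∈ Finset.range (od j), (((Nat.choose (od j + 3 - d) 4 : ℕ) : ℚ) *
        (hs (od j + 4 - d) (j - 2) + (-1) ^ (od j + 1 - d) * hs (od j + 4 - d) (13 - j))) *
        PowerSeries.coeff d (ser j e) := by
    refine Finset.sum_nbij' (fun i => od j - i) (fun d => od j - d) ?_ ?_ ?_ ?_ ?_
    · intro i hi
      rw [Finset.mem_Icc] at hi
      rw [Finset.mem_range]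
      omega
    · intro d hd
      rw [Finset.mem_range] at hd
      rw [Finset.mem_Icc]
      omega
    · intro i hi
      rw [Finset.mem_Icc] at hi
      omega
    · intro d hd
      rw [Finset.mem_range] at hd
      omega
    · intro i hi
      rw [Finset.mem_Icc] at hi
      rw [show od j + 3 - (od j - i) = i + 3 by omega, show od j + 4 - (od j - i) = i + 4 by omega,
        show od j + 1 - (od j - i) = i + 1 by omega]
      ring
  have e2 : (((Rl j).getD e 0 : ℕ) : ZMod 101) =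
      ∑ d ∈ Finset.range (od j), (((wl j).getD d 0 : ℕ) : ZMod 101) *
        (((it (mulS (101 - j) 0) e (bl j)).getD d 0 : ℕ) : ZMod 101) := by
    unfold Rl
    rw [run_getD _ _ _ _ _ he, ZMod.natCast_mod, dot_eq, hr.1]
    rw [← Finset.sum_subset (Finset.range_mono (show od j ≤ 10 by omega))]
    · push_cast
      rfl
    · intro d _ hd
      rw [Finset.mem_range, not_lt] at hd
      rw [List.getD_eq_default _ _ (by rw [wl_length]; exact hd), zero_mul]
  rw [e1, e2]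
  apply Rd.sum
  intro d hd
  rw [Finset.mem_range] at hd
  exact (wl_rd j d h3 hj hd).mul (hr.2 d (by omega))

/-- the values of `Fm` modulo 101 -/
def Fl : List ℕ := [
    0, 63, 65, 61, 8, 37, 69, 74, 32, 52, 94, 17, 55, 83, 44, 91, 33, 83, 60, 81, 70, 74, 67, 50,
    27, 23, 56, 49, 90, 88, 27, 7, 35, 69, 90, 38, 42, 68, 75, 34, 74, 10, 14, 28, 16, 73, 4, 48,
    50, 87, 49, 16, 95, 14, 45, 70, 10, 0, 16, 20, 76, 38, 90, 80, 24, 99, 36, 57, 13, 15, 96]

/-- the values at the poles -/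
def Rt : List (List ℕ) := [
  [
    0, 3, 47, 52, 76, 16, 85, 46, 50, 24, 91, 50, 10, 34, 20, 17, 56, 11, 72, 44, 69, 52, 13, 20,
    14, 8, 87, 37, 39, 76, 39, 21, 57, 96, 67, 83, 5, 70, 86, 82, 28, 27, 21, 32, 59, 58, 23, 96,
    79, 24, 6, 98, 2, 54, 91, 16, 75, 90, 51, 75, 26, 62, 15, 40, 79, 76, 89, 96, 56, 48, 37],
  [
    64, 3, 17, 16, 45, 8, 36, 51, 38, 79, 27, 65, 90, 42, 96, 40, 80, 15, 64, 54, 28, 58, 82, 23,
    7, 63, 52, 35, 85, 72, 10, 74, 87, 41, 94, 27, 88, 73, 99, 40, 87, 34, 0, 74, 5, 45, 0, 35,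
    12, 61, 82, 84, 58, 43, 58, 76, 0, 24, 20, 51, 61, 35, 63, 29, 34, 37, 55, 53, 84, 28, 21],
  [
    69, 38, 10, 61, 21, 30, 1, 50, 19, 62, 63, 1, 97, 61, 52, 47, 33, 25, 51, 25, 68, 18, 13, 15,
    25, 95, 21, 89, 64, 40, 75, 70, 63, 34, 50, 79, 71, 79, 63, 82, 37, 2, 66, 67, 56, 22, 61,
    87, 10, 11, 43, 63, 89, 93, 89, 92, 83, 41, 75, 14, 53, 88, 14, 78, 96, 59, 71, 24, 23, 66,
    89],
  [
    61, 53, 6, 22, 70, 87, 34, 19, 50, 2, 52, 78, 97, 71, 96, 46, 94, 49, 27, 57, 7, 83, 46, 60,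
    22, 55, 83, 61, 37, 38, 25, 57, 80, 40, 5, 77, 18, 10, 75, 69, 15, 96, 69, 89, 92, 83, 32,
    68, 30, 99, 21, 56, 92, 0, 93, 96, 69, 1, 10, 64, 99, 87, 93, 75, 4, 17, 0, 100, 43, 24, 60],
  [
    11, 51, 26, 92, 92, 71, 42, 24, 86, 95, 2, 2, 0, 43, 93, 25, 45, 45, 13, 58, 22, 35, 39, 34,
    20, 24, 97, 16, 47, 27, 73, 63, 42, 23, 41, 99, 27, 98, 18, 80, 49, 79, 26, 64, 85, 48, 5,
    48, 42, 17, 50, 18, 75, 17, 41, 16, 99, 25, 43, 7, 45, 80, 49, 41, 85, 15, 6, 22, 92, 77, 0],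
  [
    90, 14, 9, 92, 47, 45, 43, 65, 16, 86, 75, 80, 8, 66, 3, 26, 64, 89, 57, 26, 72, 38, 3, 48,
    33, 99, 38, 63, 43, 83, 15, 65, 37, 64, 25, 91, 27, 81, 93, 84, 5, 12, 69, 32, 60, 23, 1, 8,
    52, 32, 21, 76, 98, 95, 87, 13, 72, 54, 78, 55, 59, 80, 98, 98, 50, 88, 67, 61, 73, 84, 63],
  [
    40, 59, 31, 47, 39, 29, 83, 92, 86, 94, 44, 62, 90, 83, 9, 63, 55, 16, 87, 26, 92, 28, 0, 14,
    97, 67, 11, 76, 89, 72, 31, 89, 97, 57, 6, 58, 7, 38, 37, 26, 56, 93, 17, 12, 81, 72, 98, 7,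
    75, 72, 9, 33, 61, 79, 74, 76, 11, 82, 48, 7, 12, 18, 36, 28, 69, 26, 41, 18, 17, 82, 33],
  [
    32, 63, 91, 72, 29, 48, 78, 91, 49, 65, 0, 60, 67, 23, 25, 82, 0, 24, 97, 17, 59, 27, 5, 37,
    45, 6, 33, 73, 1, 43, 68, 53, 52, 70, 52, 85, 8, 50, 27, 29, 79, 34, 0, 15, 28, 92, 65, 27,
    14, 66, 65, 8, 32, 48, 3, 29, 77, 2, 44, 77, 47, 15, 67, 44, 86, 67, 95, 16, 68, 54, 7],
  [
    37, 54, 37, 40, 63, 31, 20, 19, 100, 75, 49, 12, 13, 72, 94, 68, 3, 78, 0, 15, 51, 11, 89,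
    11, 92, 8, 67, 74, 4, 38, 12, 26, 64, 50, 87, 19, 81, 2, 69, 66, 21, 7, 55, 38, 25, 42, 36,
    53, 83, 8, 100, 98, 18, 98, 5, 28, 18, 25, 99, 50, 50, 15, 65, 51, 27, 5, 24, 37, 2, 49, 74],
  [
    0, 3, 65, 51, 15, 2, 14, 75, 80, 73, 8, 78, 79, 28, 74, 0, 42, 70, 78, 1, 68, 81, 47, 92, 22,
    57, 61, 33, 6, 29, 29, 81, 93, 62, 89, 51, 30, 37, 65, 14, 54, 10, 67, 54, 99, 48, 79, 28,
    58, 28, 59, 56, 87, 65, 20, 94, 92, 60, 21, 85, 78, 88, 16, 42, 52, 16, 21, 21, 34, 79, 25]]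

theorem Rl3 : Rl 3 = Rt.getD 0 [] := by decide +kernel

theorem Rl4 : Rl 4 = Rt.getD 1 [] := by decide +kernel

theorem Rl5 : Rl 5 = Rt.getD 2 [] := by decide +kernel

theorem Rl6 : Rl 6 = Rt.getD 3 [] := by decide +kernel

theorem Rl7 : Rl 7 = Rt.getD 4 [] := by decide +kernel

theorem Rl8 : Rl 8 = Rt.getD 5 [] := by decide +kernel

theorem Rl9 : Rl 9 = Rt.getD 6 [] := by decide +kernel

theorem Rl10 : Rl 10 = Rt.getD 7 [] := by decide +kernel

theorem Rl11 : Rl 11 = Rt.getD 8 [] := by decide +kernel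

theorem Rl12 : Rl 12 = Rt.getD 9 [] := by decide +kernel

theorem hF : ((List.range 71).all fun e =>
    ((Rt.map (fun l => l.getD e 0)).sum + Fl.getD e 0) % 101 == 0) = true := by
  decide +kernel

/-- the inverse matrix modulo 101 -/
def Nl : List (List ℕ) := [
  [
    8, 84, 39, 42, 0, 26, 60, 94, 26, 78, 45, 90, 0, 95, 93, 11, 51, 41, 82, 46, 78, 30, 49, 62,
    15, 64, 77, 71, 1, 10, 3, 45, 5, 17, 55, 32],
  [
    84, 54, 19, 33, 83, 39, 59, 11, 22, 62, 76, 97, 42, 56, 18, 2, 52, 39, 88, 54, 28, 60, 49,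
    100, 58, 62, 27, 79, 83, 100, 61, 20, 38, 91, 12, 71],
  [
    39, 19, 34, 73, 82, 17, 36, 67, 6, 83, 55, 8, 55, 70, 40, 85, 21, 52, 13, 18, 19, 83, 61, 1,
    34, 2, 66, 24, 44, 76, 94, 48, 37, 93, 23, 29],
  [
    42, 33, 73, 48, 55, 21, 31, 39, 11, 97, 6, 67, 1, 57, 33, 41, 25, 98, 4, 9, 45, 62, 28, 8,
    79, 38, 94, 35, 56, 78, 21, 88, 33, 58, 77, 72],
  [
    0, 83, 82, 55, 93, 66, 37, 100, 24, 26, 73, 38, 6, 15, 35, 38, 59, 51, 68, 7, 58, 63, 28, 17,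
    33, 29, 4, 59, 91, 85, 46, 65, 34, 57, 81, 64],
  [
    26, 39, 17, 21, 66, 79, 26, 36, 68, 98, 33, 97, 15, 2, 95, 69, 79, 41, 54, 8, 88, 92, 34, 71,
    61, 53, 28, 27, 40, 0, 31, 29, 34, 23, 13, 75],
  [
    60, 59, 36, 31, 37, 26, 4, 64, 60, 91, 56, 11, 57, 60, 96, 37, 97, 85, 82, 55, 63, 98, 69,
    96, 35, 21, 23, 38, 0, 19, 51, 62, 16, 61, 66, 37],
  [
    94, 11, 67, 39, 100, 36, 64, 81, 12, 45, 65, 42, 16, 70, 4, 68, 75, 2, 47, 59, 96, 5, 74, 60,
    29, 39, 7, 75, 28, 90, 31, 35, 51, 19, 14, 16],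
  [
    26, 22, 6, 11, 24, 68, 60, 12, 67, 7, 25, 62, 28, 63, 9, 88, 88, 10, 75, 77, 52, 7, 37, 33,
    85, 77, 18, 55, 28, 28, 14, 97, 10, 27, 23, 61],
  [
    78, 62, 83, 97, 26, 98, 91, 45, 7, 96, 79, 39, 17, 74, 80, 31, 24, 96, 30, 94, 92, 5, 56, 63,
    11, 89, 47, 21, 45, 71, 69, 96, 4, 57, 78, 76],
  [
    45, 76, 55, 6, 73, 33, 56, 65, 25, 79, 72, 14, 37, 35, 91, 91, 57, 16, 1, 38, 47, 49, 72, 1,
    87, 93, 47, 36, 61, 34, 31, 42, 87, 52, 4, 94],
  [
    90, 97, 8, 67, 38, 97, 11, 42, 62, 39, 14, 71, 2, 87, 28, 91, 3, 96, 39, 43, 48, 98, 1, 55,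
    35, 62, 100, 18, 55, 26, 11, 86, 40, 9, 2, 64],
  [
    0, 42, 55, 1, 6, 15, 57, 16, 28, 17, 37, 2, 21, 38, 90, 38, 18, 5, 1, 3, 64, 64, 9, 88, 2,
    39, 16, 59, 65, 72, 15, 4, 71, 62, 18, 32],
  [
    95, 56, 70, 57, 15, 2, 60, 70, 63, 74, 35, 87, 38, 25, 86, 53, 2, 58, 16, 91, 0, 31, 97, 34,
    50, 36, 1, 43, 66, 56, 87, 3, 32, 17, 5, 10],
  [
    93, 18, 40, 33, 35, 95, 96, 4, 9, 80, 91, 28, 90, 86, 36, 77, 71, 99, 60, 54, 65, 76, 81, 71,
    72, 81, 66, 96, 69, 10, 68, 90, 37, 44, 90, 19],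
  [
    11, 2, 85, 41, 38, 69, 37, 68, 88, 31, 91, 91, 38, 53, 77, 22, 56, 4, 16, 74, 35, 69, 79, 59,
    36, 25, 60, 93, 75, 38, 84, 71, 6, 77, 54, 2],
  [
    51, 52, 21, 25, 59, 79, 97, 75, 88, 24, 57, 3, 18, 2, 71, 56, 79, 6, 28, 6, 39, 38, 13, 15,
    96, 40, 37, 49, 94, 64, 23, 75, 86, 94, 21, 79],
  [
    41, 39, 52, 98, 51, 41, 85, 2, 10, 96, 16, 96, 5, 58, 99, 4, 6, 51, 60, 50, 19, 4, 92, 35,
    19, 68, 54, 77, 23, 9, 34, 44, 19, 63, 40, 93],
  [
    82, 88, 13, 4, 68, 54, 82, 47, 75, 30, 1, 39, 1, 16, 60, 16, 28, 60, 100, 17, 9, 95, 55, 43,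
    80, 56, 76, 9, 35, 42, 79, 60, 46, 76, 21, 94],
  [
    46, 54, 18, 9, 7, 8, 55, 59, 77, 94, 38, 43, 3, 91, 54, 74, 6, 50, 17, 77, 69, 86, 6, 45, 42,
    66, 88, 83, 78, 36, 82, 14, 63, 23, 80, 80],
  [
    78, 28, 19, 45, 58, 88, 63, 96, 52, 92, 47, 48, 64, 0, 65, 35, 39, 19, 9, 69, 56, 33, 92, 35,
    26, 17, 61, 83, 80, 89, 14, 57, 83, 35, 29, 75],
  [
    30, 60, 83, 62, 63, 92, 98, 5, 7, 5, 49, 98, 64, 31, 76, 69, 38, 4, 95, 86, 33, 30, 72, 37,
    38, 57, 52, 25, 94, 28, 37, 89, 39, 56, 20, 69],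
  [
    49, 49, 61, 28, 28, 34, 69, 74, 37, 56, 72, 1, 9, 97, 81, 79, 13, 92, 55, 6, 92, 72, 85, 19,
    77, 34, 95, 49, 10, 84, 6, 46, 90, 18, 32, 96],
  [
    62, 100, 1, 8, 17, 71, 96, 60, 33, 63, 1, 55, 88, 34, 71, 59, 15, 35, 43, 45, 35, 37, 19, 4,
    9, 44, 94, 35, 53, 23, 10, 53, 79, 15, 25, 45],
  [
    15, 58, 34, 79, 33, 61, 35, 29, 85, 11, 87, 35, 2, 50, 72, 36, 96, 19, 80, 42, 26, 38, 77, 9,
    78, 30, 50, 42, 10, 100, 82, 58, 11, 35, 0, 84],
  [
    64, 62, 2, 38, 29, 53, 21, 39, 77, 89, 93, 62, 39, 36, 81, 25, 40, 68, 56, 66, 17, 57, 34,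
    44, 30, 32, 93, 58, 23, 82, 65, 35, 15, 55, 12, 94],
  [
    77, 27, 66, 94, 4, 28, 23, 7, 18, 47, 47, 100, 16, 1, 66, 60, 37, 54, 76, 88, 61, 52, 95, 94,
    50, 93, 65, 10, 24, 77, 55, 30, 43, 92, 75, 22],
  [
    71, 79, 24, 35, 59, 27, 38, 75, 55, 21, 36, 18, 59, 43, 96, 93, 49, 77, 9, 83, 83, 25, 49,
    35, 42, 58, 10, 29, 15, 21, 49, 94, 6, 10, 31, 64],
  [
    1, 83, 44, 56, 91, 40, 0, 28, 28, 45, 61, 55, 65, 66, 69, 75, 94, 23, 35, 78, 80, 94, 10, 53,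
    10, 23, 24, 15, 91, 17, 30, 16, 34, 8, 32, 53],
  [
    10, 100, 76, 78, 85, 0, 19, 90, 28, 71, 34, 26, 72, 56, 10, 38, 64, 9, 42, 36, 89, 28, 84,
    23, 100, 82, 77, 21, 17, 14, 79, 4, 66, 96, 41, 83],
  [
    3, 61, 94, 21, 46, 31, 51, 31, 14, 69, 31, 11, 15, 87, 68, 84, 23, 34, 79, 82, 14, 37, 6, 10,
    82, 65, 55, 49, 30, 79, 76, 82, 49, 44, 35, 29],
  [
    45, 20, 48, 88, 65, 29, 62, 35, 97, 96, 42, 86, 4, 3, 90, 71, 75, 44, 60, 14, 57, 89, 46, 53,
    58, 35, 30, 94, 16, 4, 82, 53, 4, 65, 63, 51],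
  [
    5, 38, 37, 33, 34, 34, 16, 51, 10, 4, 87, 40, 71, 32, 37, 6, 86, 19, 46, 63, 83, 39, 90, 79,
    11, 15, 43, 6, 34, 66, 49, 4, 98, 19, 50, 49],
  [
    17, 91, 93, 58, 57, 23, 61, 19, 27, 57, 52, 9, 62, 17, 44, 77, 94, 63, 76, 23, 35, 56, 18,
    15, 35, 55, 92, 10, 8, 96, 44, 65, 19, 91, 31, 74],
  [
    55, 12, 23, 77, 81, 13, 66, 14, 23, 78, 4, 2, 18, 5, 90, 54, 21, 40, 21, 80, 29, 20, 32, 25,
    0, 12, 75, 31, 32, 41, 35, 63, 50, 31, 87, 70],
  [
    32, 71, 29, 72, 64, 75, 37, 16, 61, 76, 94, 64, 32, 10, 19, 2, 79, 93, 94, 80, 75, 69, 96,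
    45, 84, 94, 22, 64, 53, 83, 29, 51, 49, 74, 70, 0]]

theorem hN : ((List.range 36).all fun i => (List.range 36).all fun k =>
    (dot (Fl.drop i) (Nl.getD k [])) % 101 == if i = k then 1 else 0) = true := by
  decide +kernel

theorem hNlen : ((List.range 36).all fun k => (Nl.getD k []).length == 36) = true := by
  decide +kernel

theorem Fm_rd (e : ℕ) (he : e < 71) : Rd (Fm e) ((Fl.getD e 0 : ℕ) : ZMod 101) := by
  have h1 : Rd (∑ j ∈ Finset.Icc 3 12, ∑ i ∈ Finset.Icc 1 (od j), ((Nat.choose (i + 3) 4 : ℕ) : ℚ) *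
      PowerSeries.coeff (od j - i) (ser j e) * (hs (i + 4) (j - 2) + (-1) ^ (i + 1) * hs (i + 4) (13 - j)))
      (∑ j ∈ Finset.Icc 3 12, (((Rl j).getD e 0 : ℕ) : ZMod 101)) := by
    apply Rd.sum
    intro j hj
    rw [Finset.mem_Icc] at hj
    exact inner_rd j e hj.1 hj.2 he
  have h2 := h1.neg
  have h3 := List.all_eq_true.1 hF e (List.mem_range.2 he)
  have h4 : ((Rt.map (fun l => l.getD e 0)).sum + Fl.getD e 0) % 101 = 0 := by simpa using h3
  have h5 : (((Rt.map (fun l => l.getD e 0)).sum + Fl.getD e 0 : ℕ) : ZMod 101) = 0 := by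
    rw [← ZMod.natCast_mod, h4, Nat.cast_zero]
  have h6 : (∑ j ∈ Finset.Icc 3 12, (Rl j).getD e 0) = (Rt.map (fun l => l.getD e 0)).sum := by
    have e0 : (Finset.Icc 3 12 : Finset ℕ) = {3, 4, 5, 6, 7, 8, 9, 10, 11, 12} := by decide
    rw [e0]
    repeat rw [Finset.sum_insert (by decide)]
    rw [Finset.sum_singleton, Rl3, Rl4, Rl5, Rl6, Rl7, Rl8, Rl9, Rl10, Rl11, Rl12]
    rfl
  have h7 : -(∑ j ∈ Finset.Icc 3 12, (((Rl j).getD e 0 : ℕ) : ZMod 101)) =
      ((Fl.getD e 0 : ℕ) : ZMod 101) := by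
    rw [← Nat.cast_sum, h6]
    rw [Nat.cast_add] at h5
    exact neg_eq_of_add_eq_zero_right h5
  rw [h7] at h2
  exact h2

end H5

theorem H5_local : (Matrix.of fun l l' : Fin 36 => Fm (l.1 + l'.1)).det ≠ 0 := by
  have : Fact (Nat.Prime 101) := ⟨H5.prime101⟩
  let A : Matrix (Fin 36) (Fin 36) (ZMod 101) := fun i j => ((H5.Fl.getD (i.1 + j.1) 0 : ℕ) : ZMod 101)
  let B : Matrix (Fin 36) (Fin 36) (ZMod 101) := fun j k =>
    (((H5.Nl.getD k.1 []).getD j.1 0 : ℕ) : ZMod 101)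
  have hAB : A * B = 1 := by
    ext i k
    have h1 := List.all_eq_true.1 (List.all_eq_true.1 H5.hN i.1 (List.mem_range.2 i.2)) k.1
      (List.mem_range.2 k.2)
    have h2 : (H5.dot (H5.Fl.drop i.1) (H5.Nl.getD k.1 [])) % 101 = if i.1 = k.1 then 1 else 0 := by
      simpa using h1
    have h3 : (H5.Nl.getD k.1 []).length = 36 := by
      have := List.all_eq_true.1 H5.hNlen k.1 (List.mem_range.2 k.2)
      simpa using this
    have h4 := congrArg (fun z : ℕ => (z : ZMod 101)) h2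
    simp only [ZMod.natCast_mod] at h4
    rw [H5.dot_eq, h3, Nat.cast_sum] at h4
    rw [Matrix.mul_apply, ← Fin.sum_univ_eq_sum_range (fun j =>
      ((((H5.Fl.drop i.1).getD j 0 * (H5.Nl.getD k.1 []).getD j 0 : ℕ)) : ZMod 101)) 36] at *
    have h5 : ∀ j : Fin 36, A i j * B j k =
        ((((H5.Fl.drop i.1).getD j.1 0 * (H5.Nl.getD k.1 []).getD j.1 0 : ℕ)) : ZMod 101) := by
      intro j
      have : (H5.Fl.drop i.1).getD j.1 0 = H5.Fl.getD (i.1 + j.1) 0 := by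
        rw [List.getD_eq_getElem?_getD, List.getD_eq_getElem?_getD, List.getElem?_drop]
      rw [this, Nat.cast_mul]
    rw [Finset.sum_congr rfl (fun j _ => h5 j), h4]
    by_cases hik : i = k
    · subst hik; simp
    · have : i.1 ≠ k.1 := fun h => hik (Fin.ext h)
      simp [hik, this]
  have hdet : A.det ≠ 0 := by
    intro h0
    have := congrArg Matrix.det hAB
    rw [Matrix.det_mul, h0, zero_mul, Matrix.det_one] at this
    exact zero_ne_one this
  refine H5.Rd.ne_zero (H5.Rd.det _ A ?_) hdet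
  intro i j
  exact H5.Fm_rd _ (by omega)

end Pool.Agent.Run7.h6.ZW
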