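import Pool.Agent.Run7.h6.ZW.H6pre
import Pool.Agent.H336R2.HD.A1
import Pool.Agent.Run7.h6.ZW.H1
import Pool.Agent.Run7.h6.ZW.H3
import Pool.Agent.Run7.h6.ZW.H5

/-! Task H6: non-vanishing of the determinant. -/

open Polynomial Pool.Agent.H337R2 Filter Topology

namespace Pool.Agent.Run7.h6.ZW

noncomputable section

theorem H6_nonvanish (u : ℕ → ℚ) (q : ℕ) (hu : UInt q u) : ∃ p0 : ℕ, ∀ p : ℕ, p0 ≤ p → p.Prime →
    DET p u (18 * (p - 1)) ≠ 0 :=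
  H6_of (fun N m _ _ _ e P hP h => H336R2.HD.A2_gram_ne N m e P hP h)
    (fun hp u hu r hr1 hr2 => H3_diag hp u hu r hr1 hr2)
    (fun hp u hu r s l l' hr1 hr2 hs1 hs2 hrs hl hl' =>
      H4_offdiag hp u hu r s l l' hr1 hr2 hs1 hs2 hrs hl hl')
    H5_local u q hu

end

end Pool.Agent.Run7.h6.ZW
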