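import Pool.Agent.Run7.h6.ZW.Zpre
import Pool.Agent.Run7.h6.ZW.H6

/-! # One of `ζ(7), ζ(9), ζ(11), ζ(13)` is irrational -/

open Polynomial Pool.Agent.H337R2

namespace Pool.Agent.Run7.h6.ZW

theorem Z_main : ∃ i ∈ ({7, 9, 11, 13} : Finset ℕ), Irrational (zr i) :=
  Z_main_of fun u q hu => H6_nonvanish u q hu

end Pool.Agent.Run7.h6.ZW
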