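import Pool.Agent.Run7.h6.ZW.G1c
import Pool.Agent.H343Y.G10

/-!
# Archimedean part: G1_0
-/

open Polynomial Pool.Agent.H337R2

namespace Pool.Agent.Run7.h6.ZW

noncomputable section

open Pool.Agent.H343Y (G10_qd_nonneg G10_qd_pos G10_qd_one G10_prod G10_Y G10_2z G10_x G10_Ps G10_Z1 G10_Z2
  G10_alg1 G10_E G10_alg3 G10_Ypow G10_F G1_trap G10_norm)

/-- numerator of `R` -/
lemma G10_PP (z : ℂ) {n : ℕ} (hn : 1 ≤ n) :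
    ‖aeval z (PPn n)‖ = |(cstN n : ℝ)| * ‖2 * z + ((16 * n : ℕ) : ℂ)‖ *
      ((∏ m ∈ Finset.Ioc 0 (2 * n), ‖z + m‖ ^ 5) *
        (∏ m ∈ Finset.Ioc (14 * n - 1) (16 * n - 1), ‖z + m‖ ^ 5)) := by
  have e1 : Finset.Icc 1 (2 * n) = Finset.Ioc 0 (2 * n) := by
    ext m; rw [Finset.mem_Icc, Finset.mem_Ioc]; omega
  have e2 : Finset.Icc (16 * n - 2 * n) (16 * n - 1) = Finset.Ioc (14 * n - 1) (16 * n - 1) := by
    ext m; rw [Finset.mem_Icc, Finset.mem_Ioc]; omega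
  have h1 : PPn n = C (cstN n) * (2 * X + C (16 * n : ℚ)) * NN 5 16 2 n := rfl
  rw [h1, NN_eq 5 16 2 n (by norm_num) (by omega), e1, e2]
  simp only [map_mul, map_prod, map_pow, map_add, aeval_X, aeval_C, norm_mul, norm_prod, norm_pow,
    eq_ratCast, map_natCast, map_ofNat, Complex.norm_ratCast]
  push_cast
  rfl

/-- denominator of `R` -/
lemma G10_QQ (z : ℂ) {n : ℕ} (hn : 1 ≤ n) :
    ‖aeval z (QQ (sN n) (muN n))‖ = (∏ m ∈ Finset.Ioc (3 * n - 1) (13 * n), ‖z + m‖ ^ 6) *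
      ∏ m ∈ Finset.Ioc (4 * n - 1) (12 * n), ‖z + m‖ ^ 4 := by
  unfold QQ
  simp only [map_prod, map_pow, map_add, aeval_X, norm_prod, norm_pow, map_natCast]
  have h1 := prod_mu 16 2 n ds10 hn (by intro d hd; simp [ds10] at hd; omega)
    (by intro d hd; simp [ds10] at hd; omega) (fun m => ‖z + (m : ℂ)‖)
  have e1 : Finset.Icc (3 * n) (16 * n - 3 * n) = Finset.Ioc (3 * n - 1) (13 * n) := by
    ext m; rw [Finset.mem_Icc, Finset.mem_Ioc]; omega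
  have e2 : Finset.Icc (4 * n) (16 * n - 4 * n) = Finset.Ioc (4 * n - 1) (12 * n) := by
    ext m; rw [Finset.mem_Icc, Finset.mem_Ioc]; omega
  refine h1.trans ?_
  simp only [ds10, List.map_cons, List.map_nil, List.prod_cons, List.prod_nil, e1, e2]
  rw [Finset.prod_pow, Finset.prod_pow]
  ring

/-- the square of `|R|`, multiplied by the poles -/
lemma G10_R (U : ℕ) {n : ℕ} (hn : 1 ≤ n) (r : ℝ) (hr : 0 ≤ r) :
    ‖Rv n (zv U r)‖ ^ 2 *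
      ((∏ j ∈ Finset.range (10 * n + 1), qd ((U : ℝ) + 3 * n - 1 / 2 + j) r) ^ 6 *
        (∏ j ∈ Finset.range (8 * n + 1), qd ((U : ℝ) + 4 * n - 1 / 2 + j) r) ^ 4) =
    ((cstN n : ℚ) : ℝ) ^ 2 * ‖2 * zv U r + ((16 * n : ℕ) : ℂ)‖ ^ 2 *
      ((∏ j ∈ Finset.range (2 * n), qd ((U : ℝ) + 1 / 2 + j) r) ^ 5 *
        (∏ j ∈ Finset.range (2 * n), qd ((U : ℝ) + 14 * n - 1 / 2 + j) r) ^ 5) := by
  have hn' : (1 : ℝ) ≤ n := by exact_mod_cast hn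
  have hQ2 : ‖aeval (zv U r) (QQ (sN n) (muN n))‖ ^ 2 =
      (∏ j ∈ Finset.range (10 * n + 1), qd ((U : ℝ) + 3 * n - 1 / 2 + j) r) ^ 6 *
        (∏ j ∈ Finset.range (8 * n + 1), qd ((U : ℝ) + 4 * n - 1 / 2 + j) r) ^ 4 := by
    rw [G10_QQ _ hn, mul_pow, G10_prod, G10_prod, show 13 * n - (3 * n - 1) = 10 * n + 1 by omega,
      show 12 * n - (4 * n - 1) = 8 * n + 1 by omega]
    congr 2
    · refine Finset.prod_congr rfl fun j _ => ?_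
      congr 1
      rw [Nat.cast_sub (by omega)]
      push_cast
      ring
    · refine Finset.prod_congr rfl fun j _ => ?_
      congr 1
      rw [Nat.cast_sub (by omega)]
      push_cast
      ring
  have hQpos : 0 < (∏ j ∈ Finset.range (10 * n + 1), qd ((U : ℝ) + 3 * n - 1 / 2 + j) r) ^ 6 *
        (∏ j ∈ Finset.range (8 * n + 1), qd ((U : ℝ) + 4 * n - 1 / 2 + j) r) ^ 4 := by
    have h1 : (0 : ℝ) ≤ U := Nat.cast_nonneg U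
    apply mul_pos
    · apply pow_pos
      apply Finset.prod_pos
      intro j _
      apply G10_qd_pos _ hr
      have h2 : (0 : ℝ) ≤ j := Nat.cast_nonneg j
      linarith
    · apply pow_pos
      apply Finset.prod_pos
      intro j _
      apply G10_qd_pos _ hr
      have h2 : (0 : ℝ) ≤ j := Nat.cast_nonneg j
      linarith
  have hP2 : ‖aeval (zv U r) (PPn n)‖ ^ 2 = ((cstN n : ℚ) : ℝ) ^ 2 *
      ‖2 * zv U r + ((16 * n : ℕ) : ℂ)‖ ^ 2 *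
      ((∏ j ∈ Finset.range (2 * n), qd ((U : ℝ) + 1 / 2 + j) r) ^ 5 *
        (∏ j ∈ Finset.range (2 * n), qd ((U : ℝ) + 14 * n - 1 / 2 + j) r) ^ 5) := by
    rw [G10_PP _ hn, mul_pow, mul_pow, mul_pow, G10_prod, G10_prod, sq_abs, Nat.sub_zero,
      show 16 * n - 1 - (14 * n - 1) = 2 * n by omega]
    congr 2
    · congr 1
      refine Finset.prod_congr rfl fun j _ => ?_
      congr 1
      push_cast
      ring
    · congr 1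
      refine Finset.prod_congr rfl fun j _ => ?_
      congr 1
      rw [Nat.cast_sub (by omega)]
      push_cast
      ring
  unfold Rv
  rw [norm_div, div_pow, ← hQ2, ← hP2]
  rw [← hQ2] at hQpos
  exact div_mul_cancel₀ _ hQpos.ne'

/-- one brick of poles -/
lemma G10_brick (N n c B w : ℕ) (θ : ℝ) (hN : 1 ≤ N) (hn : n = 24 * N + 1) (hc : 1 ≤ c) (hθ : 1 / 2 ≤ θ)
    (s : ℝ) (hs : s = (c : ℝ) * N + θ) (e : ℕ) (he : e = (B + 1) * N + w) (ρ : ℝ) (hρ : 0 ≤ ρ) :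
    ((N : ℝ) ^ (4 * (B + 1)) * (qd c ρ * (∏ a ∈ Finset.Ico (c + 1) (c + B + 1), qd ((a : ℕ) : ℝ) ρ) ^ 2 *
      qd ((c + (B + 1) : ℕ) : ℝ) ρ)) ^ N ≤
      (∏ j ∈ Finset.range e, qd (s + j) (N * ρ)) ^ 2 := by
  have hN' : (1 : ℝ) ≤ N := by exact_mod_cast hN
  have hc' : (1 : ℝ) ≤ c := by exact_mod_cast hc
  have hr : 0 ≤ (N : ℝ) * ρ := by positivity
  have h1 := G10_Ps G1_trap c N B θ ρ hρ hN hc hθ
  refine h1.trans ?_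
  have h0 : ∏ j ∈ Finset.range ((B + 1) * N), qd ((c : ℝ) * N + θ + j) (N * ρ) ≤
      ∏ j ∈ Finset.range e, qd (s + j) (N * ρ) := by
    rw [he, Finset.prod_range_add, hs]
    refine le_mul_of_one_le_right (Finset.prod_nonneg fun _ _ => G10_qd_nonneg _ _) ?_
    have h1j : ∏ _x ∈ Finset.range w, (1 : ℝ) ≤ ∏ x ∈ Finset.range w,
        qd ((c : ℝ) * N + θ + (((B + 1) * N + x : ℕ) : ℝ)) (N * ρ) := by
      refine Finset.prod_le_prod (fun _ _ => zero_le_one) fun j _ => G10_qd_one ?_ hr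
      have hj0 : (0 : ℝ) ≤ (((B + 1) * N + j : ℕ) : ℝ) := Nat.cast_nonneg _
      have : (1 : ℝ) ≤ (c : ℝ) * N := by nlinarith
      linarith
    rwa [Finset.prod_const_one] at h1j
  exact pow_le_pow_left₀ (Finset.prod_nonneg fun _ _ => G10_qd_nonneg _ _) h0 2

/-- the poles -/
lemma G10_P (N n : ℕ) (hN : 1 ≤ N) (hn : n = 24 * N + 1) (ρ : ℝ) (hρ : 0 ≤ ρ) :
    GP0 ρ ^ N * (N : ℝ) ^ (4416 * N) ≤
      (∏ j ∈ Finset.range (10 * n + 1), qd (((0 : ℕ) : ℝ) + 3 * n - 1 / 2 + j) (N * ρ)) ^ 6 *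
      (∏ j ∈ Finset.range (8 * n + 1), qd (((0 : ℕ) : ℝ) + 4 * n - 1 / 2 + j) (N * ρ)) ^ 4 := by
  have hN' : (1 : ℝ) ≤ N := by exact_mod_cast hN
  have hr : 0 ≤ (N : ℝ) * ρ := by positivity
  have h1 := G10_brick N n 72 239 11 (5 / 2) hN hn (by norm_num) (by norm_num)
    (((0 : ℕ) : ℝ) + 3 * n - 1 / 2) (by rw [hn]; push_cast; ring) (10 * n + 1) (by omega) ρ hρ
  have h2 := G10_brick N n 96 191 9 (7 / 2) hN hn (by norm_num) (by norm_num)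
    (((0 : ℕ) : ℝ) + 4 * n - 1 / 2) (by rw [hn]; push_cast; ring) (8 * n + 1) (by omega) ρ hρ
  set P : ℝ := ∏ j ∈ Finset.range (10 * n + 1), qd (((0 : ℕ) : ℝ) + 3 * n - 1 / 2 + j) (N * ρ) with hP
  set Q : ℝ := ∏ j ∈ Finset.range (8 * n + 1), qd (((0 : ℕ) : ℝ) + 4 * n - 1 / 2 + j) (N * ρ) with hQ
  set p : ℝ := qd ((72 : ℕ) : ℝ) ρ * (∏ a ∈ Finset.Ico (72 + 1) (72 + 239 + 1), qd ((a : ℕ) : ℝ) ρ) ^ 2 *
      qd ((72 + (239 + 1) : ℕ) : ℝ) ρ with hp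
  set q : ℝ := qd ((96 : ℕ) : ℝ) ρ * (∏ a ∈ Finset.Ico (96 + 1) (96 + 191 + 1), qd ((a : ℕ) : ℝ) ρ) ^ 2 *
      qd ((96 + (191 + 1) : ℕ) : ℝ) ρ with hq
  have hp0 : 0 ≤ p := by
    rw [hp]
    exact mul_nonneg (mul_nonneg (G10_qd_nonneg _ _) (by positivity)) (G10_qd_nonneg _ _)
  have hq0 : 0 ≤ q := by
    rw [hq]
    exact mul_nonneg (mul_nonneg (G10_qd_nonneg _ _) (by positivity)) (G10_qd_nonneg _ _)
  have h5 : GP0 ρ = p ^ 3 * q ^ 2 := by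
    rw [hp, hq]
    unfold GP0
    norm_num only [Nat.cast_ofNat]
    ring
  have h6 : (((N : ℝ) ^ (4 * (239 + 1)) * p) ^ N) ^ 3 ≤ (P ^ 2) ^ 3 :=
    pow_le_pow_left₀ (by positivity) h1 3
  have h7 : (((N : ℝ) ^ (4 * (191 + 1)) * q) ^ N) ^ 2 ≤ (Q ^ 2) ^ 2 :=
    pow_le_pow_left₀ (by positivity) h2 2
  clear_value p P q Q
  calc GP0 ρ ^ N * (N : ℝ) ^ (4416 * N) = (((N : ℝ) ^ (4 * (239 + 1)) * p) ^ N) ^ 3 *
        (((N : ℝ) ^ (4 * (191 + 1)) * q) ^ N) ^ 2 := by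
        rw [h5, mul_pow _ p, mul_pow _ q, mul_pow _ (p ^ N), mul_pow _ (q ^ N), mul_pow (p ^ 3),
          ← pow_mul, ← pow_mul, ← pow_mul, ← pow_mul, ← pow_mul, ← pow_mul, ← pow_mul, ← pow_mul,
          mul_comm 3 N, mul_comm 2 N,
          show 4416 * N = 4 * (239 + 1) * N * 3 + 4 * (191 + 1) * N * 2 by ring, pow_add]
        ring
    _ ≤ (P ^ 2) ^ 3 * (Q ^ 2) ^ 2 := mul_le_mul h6 h7 (by positivity) (by positivity)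
    _ = P ^ 6 * Q ^ 4 := by rw [← pow_mul, ← pow_mul]

lemma G10_alg2 {c W Z1 Z2 A Y z1 z2 D : ℝ} (hc : 0 ≤ c) (hW : 0 ≤ W) (hZ1 : 0 ≤ Z1) (hZ2 : 0 ≤ Z2)
    (hcA : c ≤ A) (hWY : W ≤ 4 * Y) (h1 : Z1 ≤ z1 * Y ^ 2) (h2 : Z2 ≤ D * z2 * Y ^ 2) :
    c * W * (Z1 ^ 5 * Z2 ^ 5) ≤ A * (4 * D ^ 5) * (z1 ^ 5 * z2 ^ 5) * Y ^ 21 := by
  have h3 : c * W ≤ A * (4 * Y) := mul_le_mul hcA hWY hW (hc.trans hcA)
  have h4 : Z1 ^ 5 ≤ (z1 * Y ^ 2) ^ 5 := pow_le_pow_left₀ hZ1 h1 5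
  have h5 : Z2 ^ 5 ≤ (D * z2 * Y ^ 2) ^ 5 := pow_le_pow_left₀ hZ2 h2 5
  have h6 : Z1 ^ 5 * Z2 ^ 5 ≤ (z1 * Y ^ 2) ^ 5 * (D * z2 * Y ^ 2) ^ 5 :=
    mul_le_mul h4 h5 (pow_nonneg hZ2 5) ((pow_nonneg hZ1 5).trans h4)
  have h7 : c * W * (Z1 ^ 5 * Z2 ^ 5) ≤ A * (4 * Y) * ((z1 * Y ^ 2) ^ 5 * (D * z2 * Y ^ 2) ^ 5) :=
    mul_le_mul h3 h6 (mul_nonneg (pow_nonneg hZ1 5) (pow_nonneg hZ2 5))
      ((mul_nonneg hc hW).trans h3)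
  refine h7.trans (le_of_eq ?_)
  ring

lemma G10_GZ (N : ℕ) (z1 z2 : ℝ) :
    (((N : ℝ) ^ 96 * z1) ^ N) ^ 5 * (((N : ℝ) ^ 96 * z2) ^ N) ^ 5 =
      (N : ℝ) ^ (960 * N) * (z1 ^ 5 * z2 ^ 5) ^ N := by
  have e1 : (N : ℝ) ^ (960 * N) = (((N : ℝ) ^ 96) ^ N) ^ 5 * (((N : ℝ) ^ 96) ^ N) ^ 5 := by
    rw [← pow_mul, ← pow_mul, ← pow_add]
    congr 1
    ring
  have e2 : ∀ z : ℝ, (z ^ N) ^ 5 = (z ^ 5) ^ N := fun z => by rw [← pow_mul, ← pow_mul, mul_comm]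
  rw [e1, mul_pow, mul_pow, mul_pow, mul_pow, mul_pow, ← e2 z1, ← e2 z2]
  ring

theorem G1_0 : ∃ (C : ℝ) (K : ℕ), 0 < C ∧ ∀ N : ℕ, 1 ≤ N → ∀ n : ℕ, n = 24 * N + 1 → ∀ ρ : ℝ, 0 ≤ ρ →
    (‖Rv n (zv 0 (N * ρ))‖ * ‖xv n (zv 0 (N * ρ))‖ ^ 400 * Real.exp (-(2 * Real.pi * (N * ρ))) *
      (1 + (N * ρ) ^ 2)) ^ 2 * GP0 ρ ^ N ≤
    C * (n : ℝ) ^ K * Real.exp (Lam * N) * (Real.exp (-(314 / 25) * ρ) * GZ0 ρ) ^ N := by
  obtain ⟨Cc, Kc, hCc, hcst⟩ := G1_cst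
  obtain ⟨Ca, hCa, habs⟩ := G10_E (2 * (21 + (2 * 400 + 2)))
  refine ⟨Cc * (4 * (2 ^ 48) ^ 5) * 648 ^ (21 + (2 * 400 + 2)) * Ca, Kc + 2 * (21 + (2 * 400 + 2)),
    mul_pos (mul_pos (mul_pos hCc (by positivity)) (pow_pos (by norm_num) _)) hCa, ?_⟩
  intro N hN n hn ρ hρ
  have hn1 : 1 ≤ n := by omega
  have hN0 : (0 : ℝ) < N := by exact_mod_cast hN
  have hr : 0 ≤ (N : ℝ) * ρ := mul_nonneg hN0.le hρ
  have hNn : N ≤ n := by omega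
  have hY0 : 0 ≤ 648 * (n : ℝ) ^ 2 * (1 + ρ) ^ 2 :=
    mul_nonneg (mul_nonneg (by norm_num) (sq_nonneg _)) (sq_nonneg _)
  have hF0 : 0 ≤ 1 + ((N : ℝ) * ρ) ^ 2 := add_nonneg zero_le_one (sq_nonneg _)
  have hM : 0 < (N : ℝ) ^ (4416 * N) := pow_pos hN0 _
  have hR := G10_R 0 hn1 ((N : ℝ) * ρ) hr
  have hW := G10_2z (U := 0) hNn (by omega) hρ hn1
  have hX := G10_x (U := 0) hNn rfl hρ hn1
  have hZ1 := G10_Z1 N n hn ρ hρ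
  have hZ2 := G10_Z2 N n hN hn ρ hρ
  have hP := G10_P N n hN hn ρ hρ
  have hcs := hcst N hN n hn
  have hE := habs N hN ρ hρ
  have hF := G10_F hn1 hNn hρ
  have hGP : 0 ≤ GP0 ρ := by
    unfold GP0
    exact mul_nonneg (mul_nonneg (mul_nonneg (pow_nonneg (G10_qd_nonneg _ _) _)
      (pow_nonneg (Finset.prod_nonneg fun _ _ => G10_qd_nonneg _ _) _))
      (pow_nonneg (G10_qd_nonneg _ _) _)) (mul_nonneg (mul_nonneg (pow_nonneg (G10_qd_nonneg _ _) _)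
      (pow_nonneg (Finset.prod_nonneg fun _ _ => G10_qd_nonneg _ _) _))
      (pow_nonneg (G10_qd_nonneg _ _) _))
  have hz1 : 0 ≤ ∏ a ∈ Finset.range 48, qd ((a : ℕ) + 1 / 2) ρ :=
    Finset.prod_nonneg fun _ _ => G10_qd_nonneg _ _
  have hz2 : 0 ≤ ∏ a ∈ Finset.Ico (336 : ℕ) 384, qd ((a : ℕ) + 1 / 2) ρ :=
    Finset.prod_nonneg fun _ _ => G10_qd_nonneg _ _
  have hGZe : GZ0 ρ = (∏ a ∈ Finset.range 48, qd ((a : ℕ) + 1 / 2) ρ) ^ 5 *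
      (∏ a ∈ Finset.Ico (336 : ℕ) 384, qd ((a : ℕ) + 1 / 2) ρ) ^ 5 := rfl
  have hZ1p : 0 ≤ ∏ j ∈ Finset.range (2 * n), qd (((0 : ℕ) : ℝ) + 1 / 2 + j) (N * ρ) :=
    Finset.prod_nonneg fun _ _ => G10_qd_nonneg _ _
  have hZ2p : 0 ≤ ∏ j ∈ Finset.range (2 * n), qd (((0 : ℕ) : ℝ) + 14 * n - 1 / 2 + j) (N * ρ) :=
    Finset.prod_nonneg fun _ _ => G10_qd_nonneg _ _
  have hA1 := G10_alg1 (E := Real.exp (-(2 * Real.pi * (N * ρ)))) 400 hY0 hF0 hF hX hP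
    (mul_nonneg (pow_nonneg hGP _) hM.le) hR
  have hA2 := G10_alg2 (sq_nonneg ((cstN n : ℚ) : ℝ)) (sq_nonneg _) hZ1p hZ2p hcs hW hZ1 hZ2
  rw [hGZe]
  generalize (∏ a ∈ Finset.range 48, qd ((a : ℕ) + 1 / 2) ρ) = z1 at *
  generalize (∏ a ∈ Finset.Ico (336 : ℕ) 384, qd ((a : ℕ) + 1 / 2) ρ) = z2 at *
  have hn0 : (0 : ℝ) ≤ n := Nat.cast_nonneg n
  have hA3 := G10_alg3 (cc := Cc) (nk := (n : ℝ) ^ Kc) (el := Real.exp (Lam * N))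
    (M1 := (N : ℝ) ^ (3456 * N)) (M2 := (N : ℝ) ^ (960 * N)) (D := 4 * (2 ^ 48) ^ 5)
    (gz := (z1 ^ 5 * z2 ^ 5) ^ N) (G10_Ypow 21 (2 * 400 + 2) n ρ) hE
    (mul_nonneg (mul_nonneg (mul_nonneg (mul_nonneg (mul_nonneg (mul_nonneg (mul_nonneg
      (mul_nonneg hCc.le (pow_nonneg hn0 _)) (Real.exp_nonneg _)) (pow_nonneg hN0.le _))
      (by norm_num)) (pow_nonneg hN0.le _)) (pow_nonneg (mul_nonneg (pow_nonneg hz1 _)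
      (pow_nonneg hz2 _)) _)) (pow_nonneg (by norm_num) _)) (pow_nonneg hn0 _))
  have e2 : (N : ℝ) ^ (4416 * N) = (N : ℝ) ^ (3456 * N) * (N : ℝ) ^ (960 * N) := by
    rw [← pow_add]
    congr 1
    omega
  rw [G10_GZ] at hA2
  rw [← mul_le_mul_iff_left₀ hM]
  refine hA1.trans ((mul_le_mul_of_nonneg_right hA2
    (mul_nonneg (pow_nonneg hY0 _) (sq_nonneg _))).trans ?_)
  rw [e2, mul_pow (Real.exp (-(314 / 25) * ρ)), pow_add (n : ℝ)]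
  exact hA3

end

end Pool.Agent.Run7.h6.ZW
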