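import Pool.Agent.Run7.h6.ZW.DefsS
import Pool.Agent.H343Y.G3L

set_option autoImplicit false

/-! # G3: numerical certificate (break points in units of `1/80`), with the library `H343Y.G3L` -/

namespace Pool.Agent.Run7.h6.ZW

namespace G3L

open Pool.Agent.H343Y.G3L (Fac Grp wl qg stg FP fg_wl fg_qg FP_stg FP_cons FP_cum cum sound half chkL chkT)

def PL0 : List Grp := [(wl 0 72 1, 3), (wl 0 73 239, 6), (wl 0 312 1, 3),
  (wl 0 96 1, 2), (wl 0 97 191, 4), (wl 0 288 1, 2)]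
def ZL0 : List Grp := [(wl 40 0 48, 5), (wl 40 336 48, 5)]

/-- the atoms in tenths -/
def BL1 : List (ℕ × ℕ) := [(14, 0), (75, 35), (133, 109), (199, 175), (259, 242), (325, 311), (388, 387), (488, 478), (607, 605), (743, 749), (905, 901), (1085, 1077)]

theorem at1_eq (k : ℕ) (hk : k < 12) :
    at1 k = (((BL1.getD k (0, 0)).1 : ℚ) / 10, ((BL1.getD k (0, 0)).2 : ℚ) / 10) := by
  interval_cases k <;> simp [at1, la1, BL1] <;> norm_num

theorem len1 (s : ℕ) (hs : s < 8) : (ls1.getD s []).length = 12 := by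
  interval_cases s <;> rfl

theorem Q1_eq (c s : ℕ) (hs : s < 8) (ρ : ℝ) :
    Q1 (c : ℚ) s ρ = FP (stg c BL1 (ls1.getD s [])) ρ := by
  have h : BL1.length = (ls1.getD s []).length := by rw [len1 s hs]; rfl
  rw [FP_stg c ρ BL1 _ h, len1 s hs]
  unfold Q1
  apply Finset.prod_congr rfl
  intro k hk
  rw [at1_eq k (Finset.mem_range.1 hk)]

theorem FP_PL0 (ρ : ℝ) : FP PL0 ρ = GP0 ρ := by
  unfold PL0 GP0
  rw [FP_cons, FP_cons, FP_cons, FP_cons, FP_cons, FP_cons, fg_wl, fg_wl, fg_wl, fg_wl, fg_wl, fg_wl,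
    Finset.prod_Ico_eq_prod_range, Finset.prod_Ico_eq_prod_range]
  simp only [FP, List.map_nil, List.prod_nil, Finset.prod_range_one, mul_one, add_zero,
    Nat.cast_zero, zero_div, Nat.cast_ofNat]
  norm_num only [Nat.reduceSub]
  simp only [mul_assoc]

theorem FP_ZL0 (ρ : ℝ) : FP ZL0 ρ = GZ0 ρ := by
  unfold ZL0 GZ0
  rw [FP_cons, FP_cons, fg_wl, fg_wl, Finset.prod_Ico_eq_prod_range, half]
  simp only [FP, List.map_nil, List.prod_nil, mul_one, zero_add]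

def stA : List (List Grp) := ZL0 :: ls1.map (stg 0 BL1)

theorem prodA (c : ℕ) (Z : List Grp) (s : ℕ) (hs : s ≤ 8) (ρ : ℝ) :
    FP (cum [] (Z :: ls1.map (stg c BL1)) s) ρ =
      FP Z ρ * ∏ s' ∈ Finset.range s, Q1 (c : ℚ) s' ρ := by
  rw [FP_cum _ _ _ (by simp [ls1]; omega), Finset.prod_range_succ']
  simp only [List.getD_cons_succ, List.getD_cons_zero]
  have h : ∏ i ∈ Finset.range s, FP ((ls1.map (stg c BL1)).getD i []) ρ =
      ∏ s' ∈ Finset.range s, Q1 (c : ℚ) s' ρ := by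
    apply Finset.prod_congr rfl
    intro i hi
    have hi' : i < 8 := by have := Finset.mem_range.1 hi; omega
    rw [Q1_eq c i hi']
    interval_cases i <;> rfl
  rw [h]
  have h0 : FP ([] : List Grp) ρ = 1 := by simp [FP]
  rw [h0, one_mul, mul_comm]

theorem mainA (br : List ℕ) (hbr : br ≠ []) (h1 : chkL PL0 stA lt1 (0 :: br) = true)
    (h2 : chkT PL0 stA lt1 ((0 :: br).getLast (by simp)) 3 = true)
    (s : ℕ) (hs : s ≤ 8) (ρ : ℝ) (hρ : 0 ≤ ρ) :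
    2 ^ 50000 * (Real.exp (-(314 / 25) * ρ) * GZ0 ρ * ∏ s' ∈ Finset.range s, Q1 0 s' ρ) ≤
      2 ^ t1 s * GP0 ρ := by
  have h := sound hbr h1 h2 (s := s) (by simp [stA, ls1]; omega) (by simp [lt1]; omega) hρ
  generalize (50000 : ℕ) = M at h ⊢
  rw [FP_PL0] at h
  unfold stA at h
  rw [prodA 0 ZL0 s hs ρ, FP_ZL0, Nat.cast_zero, ← mul_assoc (Real.exp _)] at h
  exact h

end G3L

namespace G3A

open G3L Pool.Agent.H343Y.G3L

/-- break points -/
def br : List ℕ :=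
  [32, 66, 100, 134, 163, 186, 213, 240, 272, 323, 413, 512, 573, 615,
   646, 675, 712, 763, 845, 1004, 1090, 1151, 1200, 1238, 1273, 1331, 1456, 1589,
   1648, 1695, 1734, 1775, 1826, 1932, 2090, 2147, 2196, 2240, 2280, 2335, 2458, 2648,
   2708, 2760, 2806, 2864, 2923, 3030, 3192, 3251, 3311, 3364, 3406, 3446, 3497, 3583,
   3786, 4005, 4096, 4183, 4256, 4313, 4369, 4465, 4686, 5048, 5156, 5253, 5331, 5397,
   5466, 5591, 5900, 6110, 6215, 6324, 6417, 6494, 6563, 6637, 6766, 7005, 7481, 7628,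
   7770, 7884, 7990, 8120, 8384, 8906, 9062, 9218, 9347, 9474, 9626, 9937, 10775, 13224,
   20679, 47523, 80000]

theorem c1 : chkL Pool.Agent.Run7.h6.ZW.G3L.PL0 Pool.Agent.Run7.h6.ZW.G3L.stA lt1 (0 :: br) = true := by
  decide +kernel

theorem c2 : chkT Pool.Agent.Run7.h6.ZW.G3L.PL0 Pool.Agent.Run7.h6.ZW.G3L.stA lt1 ((0 :: br).getLast (by simp)) 3 = true := by
  decide +kernel

end G3A

theorem G3_A (s : ℕ) (hs : s ≤ 8) (ρ : ℝ) (hρ : 0 ≤ ρ) :
    2 ^ 50000 * (Real.exp (-(314 / 25) * ρ) * GZ0 ρ * ∏ s' ∈ Finset.range s, Q1 0 s' ρ) ≤ 2 ^ t1 s * GP0 ρ :=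
  G3L.mainA G3A.br (by simp [G3A.br]) G3A.c1 G3A.c2 s hs ρ hρ

end Pool.Agent.Run7.h6.ZW
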