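import Pool.Agent.Run7.h6.ZW.DefsS

/-! # The basis is monic of the right degrees; the sum of the exponents -/

open Polynomial Pool.Agent.H337R2

namespace Pool.Agent.Run7.h6.ZW

noncomputable section

namespace G4m

lemma qa_monic (N : ℕ) (a b : ℚ) : (qa N a b).Monic ∧ (qa N a b).natDegree = 2 := by
  unfold qa
  set c : ℚ := ((N : ℚ) * a - 1 / 2) * ((N : ℚ) * a - 1 / 2 + 16 * (24 * (N : ℚ) + 1)) -
    ((N : ℚ) * b) ^ 2
  set d : ℚ := ((N : ℚ) * b * (2 * ((N : ℚ) * a - 1 / 2) + 16 * (24 * (N : ℚ) + 1))) ^ 2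
  have h1 : ((X - C c : ℚ[X]) ^ 2).Monic := (monic_X_sub_C c).pow 2
  have h2 : ((X - C c : ℚ[X]) ^ 2).natDegree = 2 := by
    rw [natDegree_pow, natDegree_X_sub_C]
  have h3 : (C d : ℚ[X]).degree < ((X - C c : ℚ[X]) ^ 2).degree := by
    rw [degree_eq_natDegree h1.ne_zero, h2]
    exact lt_of_le_of_lt degree_C_le (by norm_num)
  refine ⟨h1.add_of_left h3, ?_⟩
  rw [natDegree_add_eq_left_of_degree_lt h3, h2]

lemma prod_monic {ι : Type} (S : Finset ι) (f : ι → ℚ[X]) (d e : ι → ℕ)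
    (h : ∀ i ∈ S, (f i).Monic ∧ (f i).natDegree = d i) :
    (∏ i ∈ S, f i ^ e i).Monic ∧ (∏ i ∈ S, f i ^ e i).natDegree = ∑ i ∈ S, e i * d i := by
  have h1 : ∀ i ∈ S, (f i ^ e i).Monic := fun i hi => (h i hi).1.pow _
  refine ⟨monic_prod_of_monic _ _ h1, ?_⟩
  rw [natDegree_prod_of_monic _ _ h1]
  refine Finset.sum_congr rfl fun i hi => ?_
  rw [(h i hi).1.natDegree_pow, (h i hi).2]

lemma C1_monic (N s : ℕ) (hs : s < 8) : (C1 N s).Monic ∧ (C1 N s).natDegree = 54 := by
  unfold C1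
  obtain ⟨h1, h2⟩ := prod_monic (Finset.range 12) (fun k => qa N (at1 k).1 (at1 k).2) (fun _ => 2)
    (fun k => sg1 s k) (fun k _ => qa_monic _ _ _)
  refine ⟨h1, ?_⟩
  rw [h2]
  interval_cases s <;> decide

lemma div_sub (b i t : ℕ) (hb : 0 < b) : (i - b * t) / b = i / b - t := by
  rcases Nat.lt_or_ge i (b * t) with h | h
  · have h1 : i / b < t := by
      rw [Nat.div_lt_iff_lt_mul hb, mul_comm]
      exact h
    rw [Nat.sub_eq_zero_of_le h.le, Nat.zero_div, Nat.sub_eq_zero_of_le h1.le]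
  · obtain ⟨j, rfl⟩ := Nat.exists_eq_add_of_le h
    rw [Nat.add_sub_cancel_left, add_comm (b * t) j, Nat.add_mul_div_left _ _ hb,
      Nat.add_sub_cancel]

lemma e1_eq (N i s : ℕ) : e1 N i s = min N (i / 54 - N * s) := by
  unfold e1
  rw [mul_assoc, div_sub 54 i (N * s) (by norm_num)]

lemma sum_min (N q S : ℕ) : ∑ s ∈ Finset.range S, min N (q - N * s) = min (N * S) q := by
  induction S with
  | zero => simp
  | succ S ih =>
    rw [Finset.sum_range_succ, ih, Nat.mul_succ]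
    generalize N * S = T
    omega

end G4m

open G4m in
/-- the basis is monic of the right degrees -/
theorem G4_monic {N : ℕ} (hN : 1 ≤ N) (i : ℕ) (hi : i < 432 * N) :
    (PN N i).Monic ∧ (PN N i).natDegree = i := by
  obtain ⟨h1, h2⟩ := prod_monic (Finset.range 8) (fun s => C1 N s) (fun _ => 54)
    (fun s => e1 N i s) (fun s hs => C1_monic N s (Finset.mem_range.1 hs))
  unfold PN
  refine ⟨h1.mul (monic_X_pow _), ?_⟩
  rw [h1.natDegree_mul (monic_X_pow _), h2, natDegree_X_pow, ← Finset.sum_mul]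
  simp_rw [e1_eq]
  rw [sum_min]
  omega

namespace G4m

lemma sum_div (b Q : ℕ) (hb : 0 < b) (g : ℕ → ℕ) :
    ∑ i ∈ Finset.range (b * Q), g (i / b) = b * ∑ q ∈ Finset.range Q, g q := by
  induction Q with
  | zero => simp
  | succ Q ih =>
    rw [Nat.mul_succ, Finset.sum_range_add, ih, Finset.sum_range_succ, Nat.mul_add]
    congr 1
    have : ∀ x ∈ Finset.range b, g ((b * Q + x) / b) = g Q := by
      intro x hx
      rw [add_comm, Nat.add_mul_div_left _ _ hb, Nat.div_eq_of_lt (Finset.mem_range.1 hx),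
        zero_add]
    rw [Finset.sum_congr rfl this, Finset.sum_const, Finset.card_range, smul_eq_mul]

lemma sum_stage (N s r : ℕ) : 2 * ∑ q ∈ Finset.range (N * (s + 1 + r)), min N (q - N * s) ≤
    N ^ 2 * (1 + 2 * r) := by
  have e : N * (s + 1 + r) = N * s + (N + N * r) := by ring
  rw [e, Finset.sum_range_add, Finset.sum_range_add]
  have h1 : ∑ x ∈ Finset.range (N * s), min N (x - N * s) = 0 := by
    refine Finset.sum_eq_zero fun x hx => ?_
    have := Finset.mem_range.1 hx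
    omega
  have h2 : ∑ x ∈ Finset.range N, min N (N * s + x - N * s) = ∑ x ∈ Finset.range N, x := by
    refine Finset.sum_congr rfl fun x hx => ?_
    have := Finset.mem_range.1 hx
    omega
  have h3 : ∑ x ∈ Finset.range (N * r), min N (N * s + (N + x) - N * s) = N * r * N := by
    rw [Finset.sum_congr rfl (g := fun _ => N) (fun x _ => by omega), Finset.sum_const,
      Finset.card_range, smul_eq_mul]
  have h4 : (∑ x ∈ Finset.range N, x) * 2 = N * (N - 1) := Finset.sum_range_id_mul_two N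
  have h5 : N * (N - 1) ≤ N * N := Nat.mul_le_mul_left _ (Nat.sub_le _ _)
  rw [h1, h2, h3]
  nlinarith

lemma sum_e1 (N s : ℕ) (hs : s < 8) :
    2 * ∑ i ∈ Finset.range (432 * N), e1 N i s ≤ 54 * (N ^ 2 * (1 + 2 * (7 - s))) := by
  simp_rw [e1_eq]
  have e : 432 * N = 54 * (N * (s + 1 + (7 - s))) := by
    rw [show s + 1 + (7 - s) = 8 by omega]
    ring
  rw [e, sum_div 54 _ (by norm_num) (fun q => min N (q - N * s))]
  have := sum_stage N s (7 - s)
  omega

end G4m

open G4m in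
/-- the sum of the exponents -/
theorem G4_sum {N : ℕ} (hN : 1 ≤ N) :
    ((∑ i ∈ Finset.range (432 * N), EX N i : ℕ) : ℝ) ≤ 14832369 * (N : ℝ) ^ 2 := by
  have key : ∑ i ∈ Finset.range (432 * N), EX N i ≤ 14832369 * N ^ 2 := by
    have h1 : ∑ i ∈ Finset.range (432 * N), EX N i =
        432 * N * (23008 * N) + (2458 * ∑ i ∈ Finset.range (432 * N), e1 N i 0 + 2732 * ∑ i ∈ Finset.range (432 * N), e1 N i 1 + 2877 * ∑ i ∈ Finset.range (432 * N), e1 N i 2 + 2987 * ∑ i ∈ Finset.range (432 * N), e1 N i 3 + 3076 * ∑ i ∈ Finset.range (432 * N), e1 N i 4 + 3157 * ∑ i ∈ Finset.range (432 * N), e1 N i 5 + 3229 * ∑ i ∈ Finset.range (432 * N), e1 N i 6 + 3299 * ∑ i ∈ Finset.range (432 * N), e1 N i 7) := by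
      have : ∀ i ∈ Finset.range (432 * N), EX N i = 23008 * N + (2458 * e1 N i 0 + 2732 * e1 N i 1 + 2877 * e1 N i 2 + 2987 * e1 N i 3 + 3076 * e1 N i 4 + 3157 * e1 N i 5 + 3229 * e1 N i 6 + 3299 * e1 N i 7) := by
        intro i _
        unfold EX
        simp [Finset.sum_range_succ, t1, lt1]
      rw [Finset.sum_congr rfl this]
      simp only [Finset.sum_add_distrib, Finset.mul_sum, Finset.sum_const, Finset.card_range,
        smul_eq_mul]
    rw [h1]
    have a0 := sum_e1 N 0 (by norm_num)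
    have a1 := sum_e1 N 1 (by norm_num)
    have a2 := sum_e1 N 2 (by norm_num)
    have a3 := sum_e1 N 3 (by norm_num)
    have a4 := sum_e1 N 4 (by norm_num)
    have a5 := sum_e1 N 5 (by norm_num)
    have a6 := sum_e1 N 6 (by norm_num)
    have a7 := sum_e1 N 7 (by norm_num)
    have c1 : 432 * N * (23008 * N) = 9939456 * N ^ 2 := by ring
    rw [c1]
    norm_num at a0 a1 a2 a3 a4 a5 a6 a7
    generalize N ^ 2 = T at *
    omega
  calc ((∑ i ∈ Finset.range (432 * N), EX N i : ℕ) : ℝ) ≤ ((14832369 * N ^ 2 : ℕ) : ℝ) := by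
        exact_mod_cast key
    _ = _ := by push_cast; ring

end

end Pool.Agent.Run7.h6.ZW
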