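import Pool.Agent.Run7.h6.ZW.Defs
import Pool.Agent.H337R2.FormX

/-! Task B1: the linear form as a series (copy of `Pool.Agent.H336R2.HD.B1` of helper415). -/

open Polynomial Pool.Agent.H337R2 Filter Topology

namespace Pool.Agent.Run7.h6.ZW

noncomputable section

lemma B1_xp_comp (n : ℕ) : (xp n).comp (-X - C ((16 * n : ℕ) : ℚ)) = xp n := by
  unfold xp
  simp only [Polynomial.mul_comp, Polynomial.add_comp, Polynomial.X_comp, Polynomial.C_comp]
  ring

lemma B1_EE_comp (n : ℕ) (Q : ℚ[X]) : (EE n Q).comp (-X - C ((16 * n : ℕ) : ℚ)) = EE n Q := by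
  unfold EE
  rw [Polynomial.comp_assoc, B1_xp_comp]

lemma B1_P_comp (n : ℕ) (Q : ℚ[X]) :
    (PPn n * EE n Q).comp (-X - C ((16 * n : ℕ) : ℚ)) = -(PPn n * EE n Q) := by
  rw [Polynomial.mul_comp, B1_EE_comp]
  have h := PP_comp 5 16 2 n ds10
  rw [h]
  ring

lemma B1_EE_deg (n : ℕ) (Q : ℚ[X]) : (EE n Q).natDegree ≤ 2 * (41 + Q.natDegree) := by
  unfold EE
  refine Polynomial.natDegree_comp_le.trans ?_
  have h1 : (xp n).natDegree ≤ 2 := by
    unfold xp
    refine Polynomial.natDegree_mul_le.trans ?_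
    rw [Polynomial.natDegree_X, Polynomial.natDegree_X_add_C]
  have h2 : (X ^ 41 * Q).natDegree ≤ 41 + Q.natDegree := by
    refine Polynomial.natDegree_mul_le.trans ?_
    rw [Polynomial.natDegree_X_pow]
  calc (X ^ 41 * Q).natDegree * (xp n).natDegree ≤ (41 + Q.natDegree) * 2 := Nat.mul_le_mul h2 h1
    _ = _ := by ring

lemma B1_QQ_deg {n : ℕ} (hn : 1 ≤ n) : (QQ (sN n) (muN n)).natDegree = 92 * n + 10 := by
  rw [QQ_natDegree, sum_mu_one 16 2 n ds10 hn (by decide) (by decide)]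
  simp only [ds10, List.map_cons, List.map_nil, List.sum_cons, List.sum_nil]
  omega

lemma B1_deg {n : ℕ} (hn : 2 ≤ n) (Q : ℚ[X]) (hQ : Q.natDegree ≤ 36 * n - 38) :
    (PPn n * EE n Q).natDegree + 2 ≤ (QQ (sN n) (muN n)).natDegree := by
  rw [B1_QQ_deg (by omega)]
  have h1 := PP_natDegree_le 5 16 2 n ds10
  have h2 := B1_EE_deg n Q
  have h3 : (PPn n * EE n Q).natDegree ≤ (PPn n).natDegree + (EE n Q).natDegree :=
    Polynomial.natDegree_mul_le
  have h4 : (PPn n).natDegree ≤ 1 + 2 * 5 * (2 * n) := h1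
  omega

theorem B1_hasSum {n : ℕ} (hn : 2 ≤ n) (u : ℕ → ℚ)
    (hz : ∀ i ∈ ({3, 5, 7, 9} : Finset ℕ), zr (i + 4) = (u i : ℝ))
    (Q : ℚ[X]) (hQ : Q.natDegree ≤ 36 * n - 38) :
    HasSum (fun t : ℕ => ((PowerSeries.coeff 4 (RS (sN n) (muN n) (PPn n * EE n Q) (t : ℚ)) : ℚ) : ℝ))
      ((NL n u Q : ℚ) : ℝ) := by
  have hd := B1_deg hn Q hQ
  have hdeg' : (PPn n * EE n Q).degree < (QQ (sN n) (muN n)).degree := by
    rw [Polynomial.degree_eq_natDegree (QQ_monic _ _).ne_zero]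
    exact lt_of_le_of_lt Polynomial.degree_le_natDegree (by exact_mod_cast (by omega))
  have h1 := linear_form' (sN n) (muN n) (PPn n * EE n Q) hdeg' 4 (2 * n) 10 (by omega)
    (fun k hk => by rw [sN, ss, Finset.mem_Icc] at hk; omega)
    (fun k _ => mu_le_length 16 n ds10 k)
    (fun m hm => Dvd.dvd.mul_right (PP_dvd 5 16 2 n ds10 hm) _)
  convert h1 using 1
  rw [NL_apply]
  unfold xf
  push_cast
  apply Finset.sum_congr rfl
  intro i hi
  rw [Finset.mem_Icc] at hi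
  have hch : ((Nat.choose (i + 3) 4 : ℕ) : ℝ) = (-1) ^ 4 * ((Nat.choose (i - 1 + 4) (i - 1) : ℕ) : ℝ) := by
    have : Nat.choose (i - 1 + 4) (i - 1) = Nat.choose (i + 3) 4 := by
      rw [show i - 1 + 4 = i + 3 by omega, ← Nat.choose_symm_of_eq_add (show i + 3 = (i - 1) + 4 by omega)]
    rw [this]
    norm_num
  rw [hch]
  congr 1
  congr 1
  by_cases hodd : Odd i
  · have hi4 : i = 1 ∨ i ∈ ({3, 5, 7, 9} : Finset ℕ) := by
      obtain ⟨j, hj⟩ := hodd
      simp only [Finset.mem_insert, Finset.mem_singleton]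
      omega
    rcases hi4 with rfl | hi4
    · have h6 := residue_sum (sN n) (muN n) (PPn n * EE n Q) hd
      have h4 : (∑ k ∈ sN n, ((pa (sN n) (muN n) (PPn n * EE n Q) k 1 : ℚ) : ℝ)) = 0 := by
        have : (((∑ k ∈ sN n, pa (sN n) (muN n) (PPn n * EE n Q) k 1 : ℚ)) : ℝ) = 0 := by
          rw [h6]; simp
        push_cast at this
        exact this
      rw [h4, zero_mul, zero_mul]
    · rw [hz i hi4]
  · have hodd' := Nat.not_odd_iff_even.1 hodd
    have h6 := even_vanish (sN n) (muN n) (PPn n * EE n Q) (16 * n)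
      (fun k hk => ss_reflect 16 2 n hk) (fun k hk => mu_reflect 16 n ds10 (ss_reflect 16 2 n hk).1)
      (B1_P_comp n Q) (even_sum_mu 16 2 n ds10 (by omega) (by decide) (by decide) (by decide)) hodd' hi.1
    have h4 : (∑ k ∈ sN n, ((pa (sN n) (muN n) (PPn n * EE n Q) k i : ℚ) : ℝ)) = 0 := by
      have : (((∑ k ∈ sN n, pa (sN n) (muN n) (PPn n * EE n Q) k i : ℚ)) : ℝ) = 0 := by
        rw [h6]; simp
      push_cast at this
      exact this
    rw [h4, zero_mul, zero_mul]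

end

end Pool.Agent.Run7.h6.ZW
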