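import Pool.Agent.Run7.h6.ZW.Defs
import Pool.Agent.H336R2.HD.C4

/-!
# Polynomials with zeros at consecutive integers: degree and `p`-adic size
-/

open Polynomial Pool.Agent.H337R2
open Pool.Agent.H336R2.HD (C4_PB_add C4_PB_neg fN fN_shift PB_linInt prod_sym)

namespace Pool.Agent.Run7.h6.ZW

theorem C4_CP (n i : ℕ) : (CP n i).Monic ∧ (CP n i).natDegree = i := by
  unfold CP
  constructor
  · exact Polynomial.monic_prod_of_monic _ _ fun _ _ => Polynomial.monic_X_add_C _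
  · rw [Polynomial.natDegree_prod_of_monic _ _ fun _ _ => Polynomial.monic_X_add_C _,
      Finset.sum_congr rfl fun l _ => Polynomial.natDegree_X_add_C _]
    simp

lemma PB_fN {p n : ℕ} [Fact p.Prime] (ρ : ℚ) (hρ1 : 1 ≤ ρ)
    (hρ : ∀ l : ℕ, 1 ≤ l → l ≤ 36 * n → (padicNorm p (l : ℚ))⁻¹ ≤ ρ) (N : ℕ) (hN : N ≤ 36 * n) :
    ∀ a : ℤ, PB p ρ (padicNorm p ((N.factorial : ℕ) : ℚ)) (fN a N) := by
  have hρ0 : (0 : ℚ) ≤ ρ := by linarith
  have key : ∀ l : ℕ, 1 ≤ l → l ≤ 36 * n → 1 ≤ padicNorm p (l : ℚ) * ρ := by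
    intro l h1 h2
    have h3 : 0 < padicNorm p (l : ℚ) := by
      refine lt_of_le_of_ne (padicNorm.nonneg _) (Ne.symm (padicNorm.nonzero ?_))
      exact_mod_cast (by omega : l ≠ 0)
    have h4 := hρ l h1 h2
    calc (1 : ℚ) = padicNorm p (l : ℚ) * (padicNorm p (l : ℚ))⁻¹ := (mul_inv_cancel₀ h3.ne').symm
      _ ≤ _ := by gcongr
  induction N with
  | zero =>
    intro a
    have := PB.one (p := p) hρ0
    simpa [fN] using this
  | succ N ih =>
    have ih := ih (by omega)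
    have hfac : padicNorm p (((N + 1).factorial : ℕ) : ℚ) =
        padicNorm p ((N + 1 : ℕ) : ℚ) * padicNorm p ((N.factorial : ℕ) : ℚ) := by
      rw [Nat.factorial_succ, Nat.cast_mul, padicNorm.mul]
    -- the case `a = 0`
    have h0 : PB p ρ (padicNorm p (((N + 1).factorial : ℕ) : ℚ)) (fN 0 (N + 1)) := by
      have hprod : ∀ M : ℕ, M ≤ N → PB p ρ (padicNorm p ((M.factorial : ℕ) : ℚ))
          (∏ l ∈ Finset.range M, (PowerSeries.X + PowerSeries.C (((l + 1 : ℕ) : ℚ)))) := by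
        intro M
        induction M with
        | zero => intro _; simpa using PB.one (p := p) hρ0
        | succ M ihM =>
          intro hM
          rw [Finset.prod_range_succ, Nat.factorial_succ, Nat.cast_mul, padicNorm.mul, mul_comm
            (padicNorm p ((M + 1 : ℕ) : ℚ))]
          exact PB.mul hρ0 (padicNorm.nonneg _) (padicNorm.nonneg _) (ihM (by omega))
            (PB.linX hρ0 (padicNorm.nonneg _) le_rfl (key (M + 1) (by omega) (by omega)))
      unfold fN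
      rw [Finset.prod_range_succ', hfac, mul_comm (padicNorm p ((N + 1 : ℕ) : ℚ))]
      apply PB.mul hρ0 (padicNorm.nonneg _) (padicNorm.nonneg _)
      · have := hprod N le_rfl
        simpa using this
      · apply PB.linX hρ0 (padicNorm.nonneg _)
        · simp [padicNorm.nonneg]
        · exact key (N + 1) (by omega) (by omega)
    have hmul : ∀ a : ℤ, PB p ρ (padicNorm p (((N + 1).factorial : ℕ) : ℚ))
        (PowerSeries.C ((N + 1 : ℕ) : ℚ) * fN a N) := by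
      intro a
      rw [hfac]
      exact PB.mul hρ0 (padicNorm.nonneg _) (padicNorm.nonneg _)
        (PB.C hρ0 (padicNorm.nonneg _) le_rfl) (ih a)
    intro a
    induction a using Int.induction_on with
    | zero => exact h0
    | succ i hi =>
      rw [fN_shift]
      exact C4_PB_add hi (hmul _)
    | pred i hi =>
      have h := fN_shift (-(i : ℤ) - 1) N
      rw [sub_add_cancel] at h
      have h2 : fN (-(i : ℤ) - 1) (N + 1) =
          fN (-(i : ℤ)) (N + 1) + -(PowerSeries.C ((N + 1 : ℕ) : ℚ) * fN (-(i : ℤ)) N) := by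
        rw [h]; ring
      rw [h2]
      exact C4_PB_add hi (C4_PB_neg (hmul _))

lemma TS_xp (n k : ℕ) : TS (-(k : ℚ)) (xp n) =
    (PowerSeries.X + PowerSeries.C ((-(k : ℤ) : ℤ) : ℚ)) *
      (PowerSeries.X + PowerSeries.C ((16 * n - (k : ℤ) : ℤ) : ℚ)) := by
  unfold xp
  rw [map_mul, TS_X, TS_lin]
  push_cast
  congr 3
  ring

lemma TS_CP (n k i : ℕ) : TS (-(k : ℚ)) ((CP n i).comp (xp n)) =
    ∏ l ∈ Finset.range i, ((PowerSeries.X + PowerSeries.C ((8 * n - k - l : ℤ) : ℚ)) *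
      (PowerSeries.X + PowerSeries.C ((8 * n - k + l : ℤ) : ℚ))) := by
  unfold CP
  rw [Polynomial.prod_comp, map_prod]
  apply Finset.prod_congr rfl
  intro l _
  rw [Polynomial.add_comp, Polynomial.X_comp, Polynomial.C_comp]
  have : xp n + C (64 * (n : ℚ) ^ 2 - (l : ℚ) ^ 2) =
      (X + C (8 * (n : ℚ) - l)) * (X + C (8 * (n : ℚ) + l)) := by
    unfold xp
    simp only [map_sub, map_add, map_mul, map_pow, Nat.cast_mul, Nat.cast_ofNat]
    have e1 : (C (16 : ℚ)) = 16 := rfl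
    have e2 : (C (8 : ℚ)) = 8 := rfl
    have e3 : (C (64 : ℚ)) = 64 := rfl
    rw [e1, e2, e3]
    ring
  rw [this, map_mul, TS_lin, TS_lin]
  push_cast
  congr 3 <;> ring

lemma PB_CP {n p : ℕ} [Fact p.Prime] (ρ : ℚ) (hρ1 : 1 ≤ ρ)
    (hρ : ∀ l : ℕ, 1 ≤ l → l ≤ 36 * n → (padicNorm p (l : ℚ))⁻¹ ≤ ρ) (i : ℕ) (hi : 2 * i ≤ 36 * n)
    (k : ℕ) :
    PB p ρ (padicNorm p (((2 * i - 1).factorial : ℕ) : ℚ)) (TS (-(k : ℚ)) ((CP n i).comp (xp n))) := by
  have hρ0 : (0 : ℚ) ≤ ρ := by linarith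
  rw [TS_CP]
  rcases i with _ | i
  · simpa using PB.one (p := p) hρ0
  · have h := prod_sym (8 * n - k) i
    rw [h]
    have h2 := PB.mul hρ0 zero_le_one (padicNorm.nonneg _) (PB_linInt (p := p) hρ1 (8 * n - k))
      (PB_fN ρ hρ1 hρ (2 * i + 1) (by omega) (8 * n - k - i))
    rw [one_mul] at h2
    rw [show 2 * (i + 1) - 1 = 2 * i + 1 by omega]
    exact h2

theorem C4_CP_PB {n p : ℕ} [Fact p.Prime] (hn : 1 ≤ n) (ρ : ℚ) (hρ1 : 1 ≤ ρ)
    (hρ : ∀ l : ℕ, 1 ≤ l → l ≤ 36 * n → (padicNorm p (l : ℚ))⁻¹ ≤ ρ) (i j : ℕ) (hi : 2 * i ≤ 36 * n)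
    (hj : 2 * j ≤ 36 * n) (k : ℕ) :
    PB p ρ (padicNorm p (((2 * i - 1).factorial : ℕ) : ℚ) * padicNorm p (((2 * j - 1).factorial : ℕ) : ℚ))
      (TS (-(k : ℚ)) (EE n (CP n i * CP n j))) := by
  have hρ0 : (0 : ℚ) ≤ ρ := by linarith
  have h1 : TS (-(k : ℚ)) (EE n (CP n i * CP n j)) =
      (TS (-(k : ℚ)) (xp n)) ^ 41 * (TS (-(k : ℚ)) ((CP n i).comp (xp n)) *
        TS (-(k : ℚ)) ((CP n j).comp (xp n))) := by
    unfold EE
    rw [Polynomial.mul_comp, Polynomial.mul_comp, Polynomial.pow_comp, Polynomial.X_comp, map_mul,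
      map_mul, map_pow]
  rw [h1, TS_xp]
  have h2 : PB p ρ 1 (((PowerSeries.X + PowerSeries.C ((-(k : ℤ) : ℤ) : ℚ)) *
      (PowerSeries.X + PowerSeries.C ((16 * n - (k : ℤ) : ℤ) : ℚ))) ^ 41) := by
    have := PB.pow hρ0 (by norm_num) (PB.mul hρ0 zero_le_one zero_le_one (PB_linInt (p := p) hρ1 (-(k : ℤ)))
      (PB_linInt (p := p) hρ1 (16 * n - (k : ℤ)))) 41
    simpa using this
  have h3 := PB.mul hρ0 (padicNorm.nonneg _) (padicNorm.nonneg _) (PB_CP ρ hρ1 hρ i hi k)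
    (PB_CP ρ hρ1 hρ j hj k)
  have h4 := PB.mul hρ0 zero_le_one (mul_nonneg (padicNorm.nonneg _) (padicNorm.nonneg _)) h2 h3
  rwa [one_mul] at h4

end Pool.Agent.Run7.h6.ZW
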