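import Pool.Agent.Run7.h6.ZW.Defs
import Pool.Agent.H343Y.DefsG

/-!
# Definitions for the archimedean part

`n = 24 N + 1`, contour `t = - 1/2 + r (1 + i)`, `r ≥ 0`, as in `H343Y`.
-/

open Polynomial Pool.Agent.H337R2

namespace Pool.Agent.Run7.h6.ZW

noncomputable section

export Pool.Agent.H343Y (zv xv qd qa Qb)

/-- `R` at the point `z` -/
def Rv (n : ℕ) (z : ℂ) : ℂ := aeval z (PPn n) / aeval z (QQ (sN n) (muN n))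

def GZ0 (ρ : ℝ) : ℝ :=
  (∏ a ∈ Finset.range 48, qd ((a : ℕ) + 1 / 2) ρ) ^ 5 * (∏ a ∈ Finset.Ico (336 : ℕ) 384, qd ((a : ℕ) + 1 / 2) ρ) ^ 5

def GP0 (ρ : ℝ) : ℝ :=
  (qd 72 ρ ^ 3 * (∏ a ∈ Finset.Ico (73 : ℕ) 312, qd ((a : ℕ) : ℝ) ρ) ^ 6 * qd 312 ρ ^ 3) *
  (qd 96 ρ ^ 2 * (∏ a ∈ Finset.Ico (97 : ℕ) 288, qd ((a : ℕ) : ℝ) ρ) ^ 4 * qd 288 ρ ^ 2)

/-- logarithm of the constant `((10n)!)^12 ((8n)!)^8/((2n)!)^20`, per `N`, in units of `N` -/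
def Lam : ℝ := 2880 * Real.log 240 + 1536 * Real.log 192 - 960 * Real.log 48 - 3456

end

end Pool.Agent.Run7.h6.ZW
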