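import Pool.Agent.Run7.h6.ZW.DefsG

/-!
# Data of the archimedean part: atoms, exponents, exponents of the bounds; the basis `P_i`
-/

open Polynomial Pool.Agent.H337R2

namespace Pool.Agent.Run7.h6.ZW

noncomputable section

/-- atoms -/
def la1 : List (ℚ × ℚ) := [(7/5, 0), (15/2, 7/2), (133/10, 109/10), (199/10, 35/2), (259/10, 121/5), (65/2, 311/10), (194/5, 387/10), (244/5, 239/5), (607/10, 121/2), (743/10, 749/10), (181/2, 901/10), (217/2, 1077/10)]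

/-- exponents (8 stages, 12 atoms, each stage of total exponent 27) -/
def ls1 : List (List ℕ) := [
   [5, 15, 7, 0, 0, 0, 0, 0, 0, 0, 0, 0],
   [3, 3, 6, 10, 5, 0, 0, 0, 0, 0, 0, 0],
   [2, 3, 2, 4, 3, 10, 3, 0, 0, 0, 0, 0],
   [2, 0, 4, 0, 4, 1, 8, 8, 0, 0, 0, 0],
   [1, 2, 1, 2, 2, 1, 0, 8, 10, 0, 0, 0],
   [2, 0, 2, 0, 1, 2, 2, 2, 5, 11, 0, 0],
   [0, 2, 1, 0, 2, 0, 2, 1, 4, 4, 11, 0],
   [1, 0, 1, 1, 1, 0, 1, 2, 3, 1, 6, 10]]

/-- bounds: powers of two, shifted by `50000` -/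
def lt1 : List ℕ := [23008, 25466, 28198, 31075, 34062, 37138, 40295, 43524, 46823]

abbrev at1 (k : ℕ) : ℚ × ℚ := la1.getD k (0, 0)
abbrev sg1 (s k : ℕ) : ℕ := (ls1.getD s []).getD k 0
abbrev t1 (s : ℕ) : ℕ := lt1.getD s 0

/-- stage polynomial, degree `54` -/
def C1 (N s : ℕ) : ℚ[X] := ∏ k ∈ Finset.range 12, qa N (at1 k).1 (at1 k).2 ^ sg1 s k

/-- `∏ |q|^(4 σ)` of stage `s`, on the contour starting at `c` -/
def Q1 (c : ℚ) (s : ℕ) (ρ : ℝ) : ℝ := ∏ k ∈ Finset.range 12, Qb c (at1 k).1 (at1 k).2 ρ ^ (2 * sg1 s k)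

/-- number of factors `C1 N s` in `P_i` -/
def e1 (N i s : ℕ) : ℕ := min N ((i - 54 * N * s) / 54)

/-- the basis: `P_i` for `i < 432 N` -/
def PN (N i : ℕ) : ℚ[X] := (∏ s ∈ Finset.range 8, C1 N s ^ e1 N i s) * X ^ (i % 54)

/-- exponent of two in the bound, times two, shifted by `50000 N` -/
def EX (N i : ℕ) : ℕ := t1 0 * N + ∑ s ∈ Finset.range 8, (t1 (s + 1) - t1 s) * e1 N i s

/-- the constant of the archimedean bound -/
def JJ : ℝ := (216 * Lam + (Real.log 2 / 2) * (14832369 - 432 * 50000)) / 576 - 648 * Real.log 24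

end

end Pool.Agent.Run7.h6.ZW
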