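import Pool.Agent.Run7.h6.ZW.E3Com

/-! Task E3B. -/

open Polynomial Pool.Agent.H337R2

namespace Pool.Agent.Run7.h6.ZW

noncomputable section

namespace E3Baux

open Pool.Agent.H336R2.HD (E3_TT_le E3_TT_le' E3_cnt_le E3_cnt_le_one E3_sum_cnt)

lemma small_ineq (P Q z1 z2 : ℤ) (h1 : z1 = 0 ∨ z1 = 1) (h2 : z2 = 0 ∨ z2 = 1) :
    TT ((6 * P + 4 * Q - 5 * (z1 + z2)) - 1) ≤
      9 * P ^ 2 + 12 * (P * Q) + 4 * Q ^ 2 - 15 * (P * (z1 + z2)) - 10 * (Q * (z1 + z2))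
        + 6 * (z1 + z2) + 13 * (z1 * z2) := by
  refine (E3_TT_le _).trans ?_
  have e : (6 * P + 4 * Q - 5 * (z1 + z2)) ^ 2 =
      25 * (z1 + z2) ^ 2 + 4 * (9 * P ^ 2 + 12 * (P * Q) + 4 * Q ^ 2 - 15 * (P * (z1 + z2))
        - 10 * (Q * (z1 + z2))) := by ring
  rw [e, Int.add_mul_ediv_left _ _ (by norm_num)]
  rcases h1 with rfl | rfl <;> rcases h2 with rfl | rfl <;> norm_num <;> linarith

end E3Baux

open E3Baux in
theorem E3_B : ∃ K0 : ℝ, ∀ n p : ℕ, p.Prime → 7 ≤ n → 2 * n ≤ p → 2 * p < 15 * n → 16 * n < p ^ 2 → ∀ μ : ℤ,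
    μ = 5 - (6 * ((10 * n / p : ℕ) : ℤ) + 4 * ((8 * n / p : ℕ) : ℤ) - 10 * ((2 * n / p : ℕ) : ℤ)) →
    ((((18 * (n - 1) : ℕ) : ℤ) * μ + ∑ κ ∈ Kset n p, TT (4 - eeN p n κ - μ) : ℤ) : ℝ) ≤ EB n p + K0 := by
  refine ⟨10 ^ 7, ?_⟩
  intro n p hp hn hp2n hp5n hp2 μ hμ
  have hpn : n < 20 * p := by omega
  have hb := E3_bound hp hn hpn (by omega) hp2 μ hμ
  have hn1 : 1 ≤ n := by omega
  have hP := E3_P2 hn1 hp hpn
  have h12 := E3_z12 hn1 hp hpn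
  have hPz := E3_Pz hn1 hp hpn
  have hQ := E3_Q2 hn1 hp hpn
  have hPQ := E3_PQ hn1 hp hpn
  have hQz := E3_Qz hn1 hp hpn
  have hp2n' : 2 * n < p := by
    rcases hp2n.lt_or_eq with h | h
    · exact h
    · exfalso
      have h2 : 2 ∣ p := ⟨n, h.symm⟩
      have := (Nat.prime_dvd_prime_iff_eq Nat.prime_two hp).1 h2
      omega
  have hz1 : ∀ r, (cz1 n p r : ℤ) = 0 ∨ (cz1 n p r : ℤ) = 1 := by
    intro r
    have := Pool.Agent.H336R2.HD.E3_cnt_le_one p 1 (2 * n) r hp.pos (by omega)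
    unfold cz1
    omega
  have hz2 : ∀ r, (cz2 n p r : ℤ) = 0 ∨ (cz2 n p r : ℤ) = 1 := by
    intro r
    have := Pool.Agent.H336R2.HD.E3_cnt_le_one p (14 * n) (16 * n - 1) r hp.pos (by omega)
    unfold cz2
    omega
  have hs1 : ∑ r ∈ Finset.range p, (cz1 n p r : ℝ) = 2 * n := by
    have h := Pool.Agent.H336R2.HD.E3_sum_cnt p 1 (2 * n) hp.pos
    have h' : 2 * n + 1 - 1 = 2 * n := by omega
    rw [h'] at h
    unfold cz1
    exact_mod_cast h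
  have hs2 : ∑ r ∈ Finset.range p, (cz2 n p r : ℝ) = 2 * n := by
    have h := Pool.Agent.H336R2.HD.E3_sum_cnt p (14 * n) (16 * n - 1) hp.pos
    have h' : 16 * n - 1 + 1 - 14 * n = 2 * n := by omega
    rw [h'] at h
    unfold cz2
    exact_mod_cast h
  have hsum : ((∑ r ∈ Finset.range p, TT ((6 * (cP n p r : ℤ) + 4 * (cQ n p r : ℤ) - 5 * ((cz1 n p r : ℤ) + cz2 n p r)) - 1) : ℤ) : ℝ) ≤
      9 * ∑ r ∈ Finset.range p, (cP n p r : ℝ) ^ 2 + 12 * ∑ r ∈ Finset.range p, (cP n p r : ℝ) * cQ n p r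
      + 4 * ∑ r ∈ Finset.range p, (cQ n p r : ℝ) ^ 2
      - 15 * ∑ r ∈ Finset.range p, (cP n p r : ℝ) * (cz1 n p r + cz2 n p r)
      - 10 * ∑ r ∈ Finset.range p, (cQ n p r : ℝ) * (cz1 n p r + cz2 n p r)
      + 6 * (∑ r ∈ Finset.range p, (cz1 n p r : ℝ) + ∑ r ∈ Finset.range p, (cz2 n p r : ℝ))
      + 13 * ∑ r ∈ Finset.range p, (cz1 n p r : ℝ) * cz2 n p r := by
    push_cast
    have : ∀ r ∈ Finset.range p, ((TT ((6 * (cP n p r : ℤ) + 4 * (cQ n p r : ℤ) - 5 * ((cz1 n p r : ℤ) + cz2 n p r)) - 1) : ℤ) : ℝ) ≤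
        9 * (cP n p r : ℝ) ^ 2 + 12 * ((cP n p r : ℝ) * cQ n p r) + 4 * (cQ n p r : ℝ) ^ 2
        - 15 * ((cP n p r : ℝ) * (cz1 n p r + cz2 n p r)) - 10 * ((cQ n p r : ℝ) * (cz1 n p r + cz2 n p r)) +
        6 * ((cz1 n p r : ℝ) + cz2 n p r) + 13 * ((cz1 n p r : ℝ) * cz2 n p r) := by
      intro r _
      exact_mod_cast small_ineq (cP n p r : ℤ) (cQ n p r : ℤ) _ _ (hz1 r) (hz2 r)
    refine (Finset.sum_le_sum this).trans (le_of_eq ?_)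
    simp only [Finset.sum_add_distrib, Finset.sum_sub_distrib, ← Finset.mul_sum]
  have hbR : 2 * ((∑ κ ∈ Kset n p, TT (4 - eeN p n κ - μ) : ℤ) : ℝ) ≤
      ((∑ r ∈ Finset.range p, TT ((6 * (cP n p r : ℤ) + 4 * (cQ n p r : ℤ) - 5 * ((cz1 n p r : ℤ) + cz2 n p r)) - 1) : ℤ) : ℝ) + 3216 ^ 2 := by
    exact_mod_cast hb
  have ha : ((10 * n / p : ℕ) : ℝ) ≤ 200 := by
    have : 10 * n / p ≤ 200 := by
      apply Nat.div_le_of_le_mul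
      nlinarith
    exact_mod_cast this
  have ha8 : ((8 * n / p : ℕ) : ℝ) ≤ 160 := by
    have : 8 * n / p ≤ 160 := by
      apply Nat.div_le_of_le_mul
      nlinarith
    exact_mod_cast this
  have hb0 : ((2 * n / p : ℕ) : ℝ) = 0 := by
    rw [Nat.div_eq_of_lt hp2n']
    simp
  have h6 : ((18 * (n - 1) : ℕ) : ℝ) = 18 * n - 18 := by
    rw [Nat.cast_mul, Nat.cast_sub (by omega)]
    push_cast
    ring
  have hμR : (μ : ℝ) = 5 - (6 * ((10 * n / p : ℕ) : ℝ) + 4 * ((8 * n / p : ℕ) : ℝ) - 10 * ((2 * n / p : ℕ) : ℝ)) := by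
    rw [hμ]
    simp only [Int.cast_sub, Int.cast_add, Int.cast_mul, Int.cast_natCast, Int.cast_ofNat]
  unfold EB
  rw [Int.cast_add, Int.cast_mul, Int.cast_natCast, h6, hμR, hb0]
  set a : ℝ := ((10 * n / p : ℕ) : ℝ)
  set a8 : ℝ := ((8 * n / p : ℕ) : ℝ)
  have e1 : (18 * (n : ℝ) - 18) * (5 - (6 * a + 4 * a8 - 10 * 0)) =
      90 * n - 108 * n * a - 72 * n * a8 - 90 + 108 * a + 72 * a8 := by
    ring
  rw [e1]
  linarith

end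

end Pool.Agent.Run7.h6.ZW
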