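import Pool.Agent.Run7.h6.ZW.Defs
import Pool.Agent.H336R2.HD.E3Base

/-! Common part of the tasks E3A, E3B. -/

open Polynomial Pool.Agent.H337R2

namespace Pool.Agent.Run7.h6.ZW

noncomputable section

/-- poles of the long bricks in the class -/
def cP (n p r : ℕ) : ℕ := cnt p (3 * n) (13 * n) r
/-- poles of the short bricks in the class -/
def cQ (n p r : ℕ) : ℕ := cnt p (4 * n) (12 * n) r
/-- zeros in the class, first interval -/
def cz1 (n p r : ℕ) : ℕ := cnt p 1 (2 * n) r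
/-- zeros in the class, second interval -/
def cz2 (n p r : ℕ) : ℕ := cnt p (14 * n) (16 * n - 1) r

lemma E3_ee_form (n p k : ℕ) : eeN p n k =
    5 * ((cz1 n p k : ℤ) + cz2 n p k) - 6 * cP n p k - 4 * cQ n p k - 10 * ((2 * n / p : ℕ) : ℤ)
      + 6 * ((10 * n / p : ℕ) : ℤ) + 4 * ((8 * n / p : ℕ) : ℤ) := by
  unfold eeN ee n1 nq cz1 cz2 cP cQ
  have h1 : 16 * n - 2 * n = 14 * n := by omega
  have h2 : 16 * n - 3 * n = 13 * n := by omega
  have h3 : 16 * n - 4 * n = 12 * n := by omega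
  simp only [h1, h2, h3, List.map_cons, List.map_nil, List.sum_cons, List.sum_nil]
  push_cast
  norm_num
  ring

lemma E3_form (n p r : ℕ) (μ : ℤ) (hμ : μ = 5 - (6 * ((10 * n / p : ℕ) : ℤ) + 4 * ((8 * n / p : ℕ) : ℤ) - 10 * ((2 * n / p : ℕ) : ℤ))) :
    4 - eeN p n r - μ = (6 * (cP n p r : ℤ) + 4 * (cQ n p r : ℤ) - 5 * ((cz1 n p r : ℤ) + cz2 n p r)) - 1 := by
  rw [E3_ee_form, hμ]; ring

end

end Pool.Agent.Run7.h6.ZW
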