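import Pool.Agent.Run7.h6.ZW.Defs

/-! # E3_C: the class sum for `15n/2 ≤ p < 11n` -/

open Polynomial Pool.Agent.H337R2

namespace Pool.Agent.Run7.h6.ZW

namespace E3Caux

lemma TT_mono {a b : ℤ} (h : a ≤ b) : TT a ≤ TT b := by
  unfold TT
  split_ifs with h1 h2 h2
  · exact Int.ediv_le_ediv (by norm_num) (by nlinarith)
  · omega
  · positivity
  · exact le_refl _

lemma TT_nonneg (a : ℤ) : 0 ≤ TT a := by
  unfold TT
  split_ifs
  · positivity
  · exact le_refl _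

lemma TT_10 : TT 10 = 30 := by unfold TT; norm_num
lemma TT_14 : TT 14 = 56 := by unfold TT; norm_num
lemma TT_16 : TT 16 = 72 := by unfold TT; norm_num
lemma TT_20 : TT 20 = 110 := by unfold TT; norm_num
lemma TT_24 : TT 24 = 156 := by unfold TT; norm_num

/-- poles of a symmetric interval in the class of `k` -/
lemma cnt_kap {n p k A B : ℕ} (hA : 3 * n ≤ A) (hAB : A + B = 16 * n) (hp : 15 * n ≤ 2 * p) (hn : 1 ≤ n)
    (hk1 : 2 * n + 1 + p ≤ k) (hk2 : k ≤ 13 * n) :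
    cnt p A B (kap n p k) ≤ (if k ≤ B then 1 else 0) + (if A + p ≤ k then 1 else 0) := by
  have hp0 : 0 < p := by omega
  have hp' : (0 : ℤ) < p := by exact_mod_cast hp0
  have key : ∀ m : ℕ, A ≤ m → m ≤ B → (p : ℤ) ∣ (m : ℤ) - k → m = k ∨ m + p = k := by
    intro m hm1 hm2 hd
    obtain ⟨j, hj⟩ := hd
    have hj0 : j = 0 ∨ j = -1 := by
      rcases lt_trichotomy j 0 with h | h | h
      · right
        by_contra h'
        have h1 : (p : ℤ) * j ≤ p * (-2) := mul_le_mul_of_nonneg_left (by omega) hp'.le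
        omega
      · left; exact h
      · exfalso
        have h1 : (p : ℤ) * 1 ≤ p * j := mul_le_mul_of_nonneg_left (by omega) hp'.le
        omega
    rcases hj0 with rfl | rfl
    · left; omega
    · right; omega
  have hcard : ∀ S : Finset ℕ, (∀ m ∈ S, (m = k ∧ k ≤ B) ∨ (m + p = k ∧ A + p ≤ k)) →
      S.card ≤ (if k ≤ B then 1 else 0) + (if A + p ≤ k then 1 else 0) := by
    intro S hS
    have hsub : S ⊆ (if k ≤ B then {k} else ∅) ∪ (if A + p ≤ k then {k - p} else ∅) := by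
      intro m hm
      rw [Finset.mem_union]
      rcases hS m hm with ⟨h1, h2⟩ | ⟨h1, h2⟩
      · left; rw [if_pos h2, Finset.mem_singleton]; exact h1
      · right; rw [if_pos h2, Finset.mem_singleton]; omega
    refine (Finset.card_le_card hsub).trans ((Finset.card_union_le _ _).trans ?_)
    apply Nat.add_le_add
    · split_ifs <;> simp
    · split_ifs <;> simp
  have hcase : kap n p k = k % p ∨ kap n p k = (16 * n - k) % p := by
    unfold kap
    rcases le_total (k % p) ((16 * n - k) % p) with h | h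
    · left; exact min_eq_left h
    · right; exact min_eq_right h
  rcases hcase with hc | hc
  · unfold cnt
    apply hcard
    intro m hm
    rw [Finset.mem_filter, Finset.mem_Icc] at hm
    have h1 := hm.2
    rw [hc] at h1
    have h2 : (p : ℤ) ∣ ((k % p : ℕ) : ℤ) - k := by
      refine ⟨-((k / p : ℕ) : ℤ), ?_⟩
      have h3 := Nat.mod_add_div k p
      have h4 : (k : ℤ) = ((k % p : ℕ) : ℤ) + p * ((k / p : ℕ) : ℤ) := by exact_mod_cast h3.symm
      rw [h4]
      have h5 : ((((k % p : ℕ) : ℤ) + p * ((k / p : ℕ) : ℤ)) : ℤ) = (k : ℤ) := h4.symm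
      linarith
    have h3 := dvd_add h1 h2
    have h4 : (m : ℤ) - ((k % p : ℕ) : ℤ) + (((k % p : ℕ) : ℤ) - k) = m - k := by ring
    rw [h4] at h3
    rcases key m hm.1.1 hm.1.2 h3 with h5 | h5
    · left; exact ⟨h5, by omega⟩
    · right; exact ⟨h5, by omega⟩
  · have hinj : cnt p A B (kap n p k) ≤
        (((Finset.Icc A B).filter (fun m : ℕ => (p : ℤ) ∣ (m : ℤ) - (kap n p k : ℕ))).image
          (fun m => 16 * n - m)).card := by
      unfold cnt
      rw [Finset.card_image_of_injOn]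
      intro a ha b hb hab
      rw [Finset.mem_coe, Finset.mem_filter, Finset.mem_Icc] at ha hb
      simp only at hab
      omega
    refine hinj.trans (hcard _ ?_)
    intro m' hm'
    rw [Finset.mem_image] at hm'
    obtain ⟨m, hm, rfl⟩ := hm'
    rw [Finset.mem_filter, Finset.mem_Icc] at hm
    have h1 := hm.2
    rw [hc] at h1
    have h2 : (p : ℤ) ∣ (((16 * n - k) % p : ℕ) : ℤ) - ((16 * n - k : ℕ) : ℤ) := by
      refine ⟨-(((16 * n - k) / p : ℕ) : ℤ), ?_⟩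
      have h3 := Nat.mod_add_div (16 * n - k) p
      have h4 : ((16 * n - k : ℕ) : ℤ) = (((16 * n - k) % p : ℕ) : ℤ) + p * (((16 * n - k) / p : ℕ) : ℤ) := by
        exact_mod_cast h3.symm
      linarith
    have h3 := dvd_add h1 h2
    have h5 : ((16 * n - k : ℕ) : ℤ) = 16 * n - k := by omega
    have h4 : (m : ℤ) - (((16 * n - k) % p : ℕ) : ℤ) + ((((16 * n - k) % p : ℕ) : ℤ) - ((16 * n - k : ℕ) : ℤ))
        = -(((16 * n - m : ℕ) : ℤ) - k) := by
      have h6 : ((16 * n - m : ℕ) : ℤ) = 16 * n - m := by omega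
      rw [h5, h6]; ring
    rw [h4] at h3
    rcases key (16 * n - m) (by omega) (by omega) ((dvd_neg).1 h3) with h7 | h7
    · left; exact ⟨h7, by omega⟩
    · right; exact ⟨h7, by omega⟩

lemma kap_refl {n p k : ℕ} (h1 : p ≤ k) (h2 : k ≤ 16 * n) : kap n p (16 * n + p - k) = kap n p k := by
  unfold kap
  have h3 : 16 * n + p - k = (16 * n - k) + p := by omega
  have h4 : 16 * n - (16 * n + p - k) = k - p := by omega
  rw [h4, h3, Nat.add_mod_right]
  have h5 : (k - p) % p = k % p := (Nat.mod_eq_sub_mod h1).symm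
  rw [h5, min_comm]

/-- sum over an image -/
lemma sum_image_le' {S : Finset ℕ} {f : ℕ → ℕ} {F : ℕ → ℤ} (hF : ∀ x, 0 ≤ F x) :
    ∑ x ∈ S.image f, F x ≤ ∑ k ∈ S, F (f k) := by
  classical
  calc ∑ x ∈ S.image f, F x ≤ ∑ x ∈ S.image f, ∑ k ∈ S with f k = x, F (f k) := by
        apply Finset.sum_le_sum
        intro x hx
        rw [Finset.mem_image] at hx
        obtain ⟨k, hk, rfl⟩ := hx
        exact Finset.single_le_sum (f := fun k => F (f k)) (fun _ _ => hF _)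
          (Finset.mem_filter.2 ⟨hk, rfl⟩)
    _ = ∑ k ∈ S, F (f k) := Finset.sum_fiberwise_of_maps_to (fun k hk => Finset.mem_image_of_mem _ hk) _

/-- the sum of an indicator over an interval -/
lemma sum_ind (a b : ℕ) (P : ℕ → Prop) [DecidablePred P] (c d : ℕ) (h : ∀ k, a ≤ k → k ≤ b → P k → c ≤ k ∧ k ≤ d) :
    ∑ k ∈ Finset.Icc a b, (if P k then (1 : ℤ) else 0) ≤ ((d + 1 - c : ℕ) : ℤ) := by
  rw [Finset.sum_ite, Finset.sum_const_zero, add_zero, Finset.sum_const, nsmul_eq_mul, mul_one]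
  have h1 : (Finset.Icc a b).filter P ⊆ Finset.Icc c d := by
    intro k hk
    rw [Finset.mem_filter, Finset.mem_Icc] at hk
    rw [Finset.mem_Icc]
    exact h k hk.1.1 hk.1.2 hk.2
  have h2 := Finset.card_le_card h1
  rw [Nat.card_Icc] at h2
  exact_mod_cast h2

end E3Caux

open E3Caux

theorem E3_C : ∃ K0 : ℝ, ∀ n p : ℕ, p.Prime → 7 ≤ n → 15 * n ≤ 2 * p → p < 11 * n → 16 * n < p ^ 2 → ∀ μ : ℤ,
    μ = - (6 * ((10 * n / p : ℕ) : ℤ) + 4 * ((8 * n / p : ℕ) : ℤ)) →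
    ((((18 * (n - 1) : ℕ) : ℤ) * μ + ∑ κ ∈ Kfull n p, TT (4 - eeN p n κ - μ) : ℤ) : ℝ) ≤ EC n p + K0 := by
  refine ⟨1000, ?_⟩
  intro n p hp hn h5 h7 _ μ hμ
  have hp0 : 0 < p := hp.pos
  have h2n : 2 * n / p = 0 := Nat.div_eq_of_lt (by omega)
  -- the exponent
  have hexp : ∀ κ, 4 - eeN p n κ - μ ≤ 4 + 6 * (cnt p (3 * n) (13 * n) κ : ℤ)
      + 4 * (cnt p (4 * n) (12 * n) κ : ℤ) := by
    intro κ
    unfold eeN ee n1 nq
    rw [hμ, h2n]
    have e1 : 16 * n - 3 * n = 13 * n := by omega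
    have e1' : 16 * n - 4 * n = 12 * n := by omega
    simp only [List.map_cons, List.map_nil, List.sum_cons, List.sum_nil, e1, e1']
    have e2 : (16 - 2 * 3) * n / p = 10 * n / p := by norm_num
    have e2' : (16 - 2 * 4) * n / p = 8 * n / p := by norm_num
    rw [e2, e2']
    push_cast
    have e3 : (0 : ℤ) ≤ (cnt p 1 (2 * n) κ : ℤ) := by positivity
    have e4 : (0 : ℤ) ≤ (cnt p (16 * n - 2 * n) (16 * n - 1) κ : ℤ) := by positivity
    linarith
  set F : ℕ → ℤ := fun κ => TT (4 - eeN p n κ - μ) with hFdef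
  have hF0 : ∀ κ, 0 ≤ F κ := fun κ => TT_nonneg _
  have hFk : ∀ k, 2 * n + 1 + p ≤ k → k ≤ 13 * n → F (kap n p k) ≤
      TT (4 + 6 * (1 + if 3 * n + p ≤ k then 1 else 0) +
        4 * ((if k ≤ 12 * n then 1 else 0) + if 4 * n + p ≤ k then 1 else 0)) := by
    intro k hk1 hk2
    apply TT_mono
    have h1 := hexp (kap n p k)
    have h2 := cnt_kap (A := 3 * n) (B := 13 * n) (le_refl _) (by ring) h5 (by omega) hk1 hk2
    have h3 := cnt_kap (A := 4 * n) (B := 12 * n) (by omega) (by ring) h5 (by omega) hk1 hk2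
    rw [if_pos hk2] at h2
    have h2' : (cnt p (3 * n) (13 * n) (kap n p k) : ℤ) ≤ 1 + (if 3 * n + p ≤ k then 1 else 0) := by
      exact_mod_cast h2
    have h3' : (cnt p (4 * n) (12 * n) (kap n p k) : ℤ) ≤
        (if k ≤ 12 * n then 1 else 0) + (if 4 * n + p ≤ k then 1 else 0) := by
      exact_mod_cast h3
    linarith
  set R1 : Finset ℕ := Finset.Icc (2 * n + 1 + p) (min (13 * n) (3 * n + p - 1)) with hR1
  set R2 : Finset ℕ := Finset.Icc (3 * n + p) ((16 * n + p) / 2) with hR2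
  have hsub : Kfull n p ⊆ R1.image (kap n p) ∪ R2.image (kap n p) := by
    intro κ hκ
    unfold Kfull at hκ
    rw [Finset.mem_image] at hκ
    obtain ⟨k, hk, rfl⟩ := hκ
    rw [Finset.mem_Icc] at hk
    rw [Finset.mem_union]
    by_cases h : k < 3 * n + p
    · left
      exact Finset.mem_image.2 ⟨k, Finset.mem_Icc.2 ⟨hk.1, by omega⟩, rfl⟩
    · right
      rw [Finset.mem_image]
      by_cases h' : k ≤ (16 * n + p) / 2
      · exact ⟨k, Finset.mem_Icc.2 ⟨by omega, h'⟩, rfl⟩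
      · exact ⟨16 * n + p - k, Finset.mem_Icc.2 ⟨by omega, by omega⟩, kap_refl (by omega) (by omega)⟩
  have hsum1 : ∑ κ ∈ Kfull n p, F κ ≤ ∑ k ∈ R1, F (kap n p k) + ∑ k ∈ R2, F (kap n p k) := by
    refine (Finset.sum_le_sum_of_subset_of_nonneg hsub (fun _ _ _ => hF0 _)).trans ?_
    have h1 := Finset.sum_union_inter (s₁ := R1.image (kap n p)) (s₂ := R2.image (kap n p)) (f := F)
    have h0 : 0 ≤ ∑ κ ∈ R1.image (kap n p) ∩ R2.image (kap n p), F κ := Finset.sum_nonneg (fun _ _ => hF0 _)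
    have h2 := sum_image_le' (S := R1) (f := kap n p) hF0
    have h3 := sum_image_le' (S := R2) (f := kap n p) hF0
    linarith
  have hA1 : ∑ k ∈ R1, F (kap n p k) ≤ 30 * (∑ k ∈ R1, (1 : ℤ)) +
      26 * ∑ k ∈ R1, (if k ≤ 12 * n then (1 : ℤ) else 0) := by
    rw [Finset.mul_sum, Finset.mul_sum, ← Finset.sum_add_distrib]
    apply Finset.sum_le_sum
    intro k hk
    rw [hR1, Finset.mem_Icc] at hk
    refine (hFk k hk.1 (by omega)).trans ?_
    rw [if_neg (by omega : ¬ 3 * n + p ≤ k), if_neg (by omega : ¬ 4 * n + p ≤ k)]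
    split_ifs
    · have := TT_14; norm_num [this]
    · have := TT_10; norm_num [this]
  have hA2 : ∑ k ∈ R2, F (kap n p k) ≤ 72 * (∑ k ∈ R2, (1 : ℤ)) +
      38 * ∑ k ∈ R2, (if k ≤ 12 * n then (1 : ℤ) else 0) +
      46 * ∑ k ∈ R2, (if 4 * n + p ≤ k then (1 : ℤ) else 0) := by
    rw [Finset.mul_sum, Finset.mul_sum, Finset.mul_sum, ← Finset.sum_add_distrib, ← Finset.sum_add_distrib]
    apply Finset.sum_le_sum
    intro k hk
    rw [hR2, Finset.mem_Icc] at hk
    refine (hFk k (by omega) (by omega)).trans ?_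
    rw [if_pos hk.1]
    split_ifs
    · have := TT_24; norm_num [this]
    · have := TT_20; norm_num [this]
    · have := TT_20; norm_num [this]
    · have := TT_16; norm_num [this]
  have hcR1 : (∑ k ∈ R1, (1 : ℤ)) ≤ ((min (13 * n) (3 * n + p - 1) + 1 - (2 * n + 1 + p) : ℕ) : ℤ) := by
    rw [Finset.sum_const, nsmul_eq_mul, mul_one, hR1, Nat.card_Icc]
  have hcR1' : ∑ k ∈ R1, (if k ≤ 12 * n then (1 : ℤ) else 0) ≤
      ((min (12 * n) (3 * n + p - 1) + 1 - (2 * n + 1 + p) : ℕ) : ℤ) := by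
    rw [hR1]
    exact sum_ind _ _ (fun k => k ≤ 12 * n) _ _ (fun k h1 h2 h3 => ⟨h1, by omega⟩)
  have hcR2 : (∑ k ∈ R2, (1 : ℤ)) ≤ (((16 * n + p) / 2 + 1 - (3 * n + p) : ℕ) : ℤ) := by
    rw [Finset.sum_const, nsmul_eq_mul, mul_one, hR2, Nat.card_Icc]
  have hcR2' : ∑ k ∈ R2, (if k ≤ 12 * n then (1 : ℤ) else 0) ≤
      ((min (12 * n) ((16 * n + p) / 2) + 1 - (3 * n + p) : ℕ) : ℤ) := by
    rw [hR2]
    exact sum_ind _ _ (fun k => k ≤ 12 * n) _ _ (fun k h1 h2 h3 => ⟨h1, by omega⟩)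
  have hcR2'' : ∑ k ∈ R2, (if 4 * n + p ≤ k then (1 : ℤ) else 0) ≤
      (((16 * n + p) / 2 + 1 - (4 * n + p) : ℕ) : ℤ) := by
    rw [hR2]
    exact sum_ind _ _ (fun k => 4 * n + p ≤ k) _ _ (fun k h1 h2 h3 => ⟨h3, h2⟩)
  have h6n : (((18 * (n - 1) : ℕ) : ℤ)) = 18 * n - 18 := by omega
  rw [h6n]
  have hmain : ∑ κ ∈ Kfull n p, F κ ≤ 30 * ((min (13 * n) (3 * n + p - 1) + 1 - (2 * n + 1 + p) : ℕ) : ℤ) +
      26 * ((min (12 * n) (3 * n + p - 1) + 1 - (2 * n + 1 + p) : ℕ) : ℤ) +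
      (72 * (((16 * n + p) / 2 + 1 - (3 * n + p) : ℕ) : ℤ) +
      38 * ((min (12 * n) ((16 * n + p) / 2) + 1 - (3 * n + p) : ℕ) : ℤ) +
      46 * (((16 * n + p) / 2 + 1 - (4 * n + p) : ℕ) : ℤ)) := by
    linarith
  -- comparison with the tents
  have hZ : (18 * (n : ℤ) - 18) * μ + ∑ κ ∈ Kfull n p, F κ ≤
      - 108 * n * ((10 * n / p : ℕ) : ℤ) - 72 * n * ((8 * n / p : ℕ) : ℤ) +
      30 * ((11 * n - 1 * p : ℕ) : ℤ) + 32 * ((10 * n - 1 * p : ℕ) : ℤ) + 12 * ((9 * n - 1 * p : ℕ) : ℤ)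
      + 4 * ((8 * n - 1 * p : ℕ) : ℤ) + 1000 := by
    rw [one_mul]
    by_cases c8 : p ≤ 8 * n
    · have hd10 : 10 * n / p = 1 := by rw [Nat.div_eq_iff hp0]; omega
      have hd8 : 8 * n / p = 1 := by rw [Nat.div_eq_iff hp0]; omega
      have hμ' : μ = -10 := by rw [hμ, hd10, hd8]; norm_num
      rw [hμ', hd10, hd8]
      push_cast
      omega
    · by_cases c10 : p ≤ 10 * n
      · have hd10 : 10 * n / p = 1 := by rw [Nat.div_eq_iff hp0]; omega
        have hd8 : 8 * n / p = 0 := Nat.div_eq_of_lt (by omega)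
        have hμ' : μ = -6 := by rw [hμ, hd10, hd8]; norm_num
        rw [hμ', hd10, hd8]
        push_cast
        by_cases c9 : p ≤ 9 * n
        · omega
        · omega
      · have hd10 : 10 * n / p = 0 := Nat.div_eq_of_lt (by omega)
        have hd8 : 8 * n / p = 0 := Nat.div_eq_of_lt (by omega)
        have hμ' : μ = 0 := by rw [hμ, hd10, hd8]; norm_num
        rw [hμ', hd10, hd8]
        push_cast
        omega
  have hR : (((18 * (n : ℤ) - 18) * μ + ∑ κ ∈ Kfull n p, F κ : ℤ) : ℝ) ≤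
      ((- 108 * n * ((10 * n / p : ℕ) : ℤ) - 72 * n * ((8 * n / p : ℕ) : ℤ) +
      30 * ((11 * n - 1 * p : ℕ) : ℤ) + 32 * ((10 * n - 1 * p : ℕ) : ℤ) + 12 * ((9 * n - 1 * p : ℕ) : ℤ)
      + 4 * ((8 * n - 1 * p : ℕ) : ℤ) + 1000 : ℤ) : ℝ) := by exact_mod_cast hZ
  refine hR.trans (le_of_eq ?_)
  unfold EC tn
  simp only [Int.cast_add, Int.cast_sub, Int.cast_mul, Int.cast_neg, Int.cast_natCast, Int.cast_ofNat]

end Pool.Agent.Run7.h6.ZW
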