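import Pool.Agent.Run7.h6.ZW.E4a
import Pool.Agent.Run7.h6.ZW.D2
import Pool.Agent.Run7.h6.ZW.D3
import Pool.Agent.Run7.h6.ZW.E3A
import Pool.Agent.Run7.h6.ZW.E3B
import Pool.Agent.Run7.h6.ZW.E3C

/-! Task E4: p-adic size of the determinant, all primes `p > n/20`. -/

open Polynomial Pool.Agent.H337R2

namespace Pool.Agent.Run7.h6.ZW

noncomputable section

/-- p-adic size of the determinant, all primes `p > n/20` -/
theorem E4_padic : ∃ K0 : ℝ, 0 ≤ K0 ∧ ∀ n : ℕ, 7 ≤ n → ∀ p : ℕ, p.Prime → n < 20 * p → 16 * n < p ^ 2 →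
    ∀ (q : ℕ) (u : ℕ → ℚ), UInt q u →
    ((padicNorm p ((q : ℚ) ^ (18 * (n - 1)) * DET n u (18 * (n - 1))) : ℚ) : ℝ) ≤
      if p < 11 * n then (p : ℝ) ^ (EW n p + K0) else 1 := by
  refine E4_of ?_ ?_ E3_A E3_B E3_C
  · intro n p _ hn hp2 q u hu m μ S hS hc h
    exact D3_det_padic hn hp2 q u hu m μ S hS hc h
  · intro n p k hp hk
    exact D2_kap_mem hp hk

end

end Pool.Agent.Run7.h6.ZW
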