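import Pool.Agent.Run7.h6.ZW.Defs

/-! Task E4 (helper89, after helper541's HD.E4a): p-adic size of the determinant, all primes
`p > n/20`; version with the results D2, D3, E3 as hypotheses. -/

open Polynomial Pool.Agent.H337R2

namespace Pool.Agent.Run7.h6.ZW

noncomputable section

theorem cstN_norm {n p : ℕ} [Fact p.Prime] (hp2 : 16 * n < p ^ 2) :
    padicNorm p (cstN n) = (p : ℚ) ^ (10 * ((2 * n / p : ℕ) : ℤ) - (6 * ((10 * n / p : ℕ) : ℤ) + 4 * ((8 * n / p : ℕ) : ℤ))) := by
  have h := norm_cst (p := p) 5 16 2 n ds10 hp2 (by simp) (by norm_num)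
  rw [show cstN n = cst 5 16 2 n ds10 from rfl, h]
  congr 1
  simp only [ds10, List.map_cons, List.map_nil, List.sum_cons, List.sum_nil]
  norm_num
  ring

/-- the statement of `D3_det_padic` -/
def D3S : Prop := ∀ (n p : ℕ) [Fact p.Prime], 1 ≤ n → 16 * n < p ^ 2 → ∀ (q : ℕ) (u : ℕ → ℚ),
    UInt q u → ∀ (m : ℕ) (μ : ℤ) (S : Finset ℕ), S ⊆ Kset n p →
    padicNorm p (cstN n) ≤ (p : ℚ) ^ μ →
    (∀ k ∈ Finset.Icc (3 * n) (13 * n), kap n p k ∈ S ∨
      (k < 2 * n + 1 + p ∧ ∀ k' ∈ Finset.Icc (3 * n) (13 * n), k' ≠ k → ¬ (p : ℤ) ∣ (k' : ℤ) - k)) →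
    padicNorm p ((q : ℚ) ^ m * DET n u m) ≤ (p : ℚ) ^ (m * μ + ∑ κ ∈ S, TT (4 - eeN p n κ - μ))

theorem to_rpow {p : ℕ} (hp : 1 ≤ p) {x : ℚ} {z : ℤ} {E : ℝ} (h : x ≤ (p : ℚ) ^ z) (hz : (z : ℝ) ≤ E) :
    (x : ℝ) ≤ (p : ℝ) ^ E := by
  have hp1 : (1 : ℝ) ≤ (p : ℝ) := by exact_mod_cast hp
  have h1 : (x : ℝ) ≤ (((p : ℚ) ^ z : ℚ) : ℝ) := by exact_mod_cast h
  refine h1.trans ?_
  rw [Rat.cast_zpow, Rat.cast_natCast, ← Real.rpow_intCast]
  exact Real.rpow_le_rpow_of_exponent_le hp1 hz

theorem E4_of (hD3 : D3S)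
    (hD2 : ∀ {n p k : ℕ}, 0 < p → k ≤ 16 * n → kap n p k ∈ Kset n p)
    (hA : ∃ K0 : ℝ, ∀ n p : ℕ, p.Prime → 7 ≤ n → n < 20 * p → p < 2 * n → 16 * n < p ^ 2 → ∀ μ : ℤ,
      μ = 5 - (6 * ((10 * n / p : ℕ) : ℤ) + 4 * ((8 * n / p : ℕ) : ℤ) - 10 * ((2 * n / p : ℕ) : ℤ)) →
      ((((18 * (n - 1) : ℕ) : ℤ) * μ + ∑ κ ∈ Kset n p, TT (4 - eeN p n κ - μ) : ℤ) : ℝ) ≤ EA n p + K0)
    (hB : ∃ K0 : ℝ, ∀ n p : ℕ, p.Prime → 7 ≤ n → 2 * n ≤ p → 2 * p < 15 * n → 16 * n < p ^ 2 → ∀ μ : ℤ,
      μ = 5 - (6 * ((10 * n / p : ℕ) : ℤ) + 4 * ((8 * n / p : ℕ) : ℤ) - 10 * ((2 * n / p : ℕ) : ℤ)) →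
      ((((18 * (n - 1) : ℕ) : ℤ) * μ + ∑ κ ∈ Kset n p, TT (4 - eeN p n κ - μ) : ℤ) : ℝ) ≤ EB n p + K0)
    (hC : ∃ K0 : ℝ, ∀ n p : ℕ, p.Prime → 7 ≤ n → 15 * n ≤ 2 * p → p < 11 * n → 16 * n < p ^ 2 → ∀ μ : ℤ,
      μ = - (6 * ((10 * n / p : ℕ) : ℤ) + 4 * ((8 * n / p : ℕ) : ℤ)) →
      ((((18 * (n - 1) : ℕ) : ℤ) * μ + ∑ κ ∈ Kfull n p, TT (4 - eeN p n κ - μ) : ℤ) : ℝ) ≤ EC n p + K0) :
    ∃ K0 : ℝ, 0 ≤ K0 ∧ ∀ n : ℕ, 7 ≤ n → ∀ p : ℕ, p.Prime → n < 20 * p → 16 * n < p ^ 2 →
    ∀ (q : ℕ) (u : ℕ → ℚ), UInt q u →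
    ((padicNorm p ((q : ℚ) ^ (18 * (n - 1)) * DET n u (18 * (n - 1))) : ℚ) : ℝ) ≤
      if p < 11 * n then (p : ℝ) ^ (EW n p + K0) else 1 := by
  obtain ⟨KA, hKA⟩ := hA
  obtain ⟨KB, hKB⟩ := hB
  obtain ⟨KC, hKC⟩ := hC
  refine ⟨max (max KA KB) (max KC 0), (le_max_right KC 0).trans (le_max_right _ _), ?_⟩
  intro n hn p hp hnp hp2 q u hu
  have : Fact p.Prime := ⟨hp⟩
  have hp1 : 1 ≤ p := hp.one_lt.le
  have hpQ : (1 : ℚ) ≤ (p : ℚ) := by exact_mod_cast hp1
  have hcst := cstN_norm (n := n) (p := p) hp2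
  by_cases h5 : 2 * p < 15 * n
  · -- 2p < 17n
    rw [if_pos (by omega)]
    set μ : ℤ := 5 - (6 * ((10 * n / p : ℕ) : ℤ) + 4 * ((8 * n / p : ℕ) : ℤ) - 10 * ((2 * n / p : ℕ) : ℤ)) with hμ
    have h3 := hD3 n p (by omega) hp2 q u hu (18 * (n - 1)) μ (Kset n p) subset_rfl
      (by rw [hcst]; exact zpow_le_zpow_right₀ hpQ (by omega))
      (fun k hk => Or.inl (hD2 hp.pos (by rw [Finset.mem_Icc] at hk; omega)))
    refine to_rpow hp1 h3 ?_
    by_cases h2 : p < 2 * n
    · have h4 := hKA n p hp hn hnp h2 hp2 μ hμ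
      refine h4.trans ?_
      rw [EW, if_pos h2]
      have : KA ≤ max (max KA KB) (max KC 0) := (le_max_left KA KB).trans (le_max_left _ _)
      linarith
    · have h4 := hKB n p hp hn (by omega) h5 hp2 μ hμ
      refine h4.trans ?_
      rw [EW, if_neg h2, if_pos h5]
      have : KB ≤ max (max KA KB) (max KC 0) := (le_max_right KA KB).trans (le_max_left _ _)
      linarith
  · by_cases h7 : p < 11 * n
    · rw [if_pos h7]
      have h20 : 2 * n / p = 0 := Nat.div_eq_of_lt (by omega)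
      have h3 := hD3 n p (by omega) hp2 q u hu (18 * (n - 1)) (- (6 * ((10 * n / p : ℕ) : ℤ) + 4 * ((8 * n / p : ℕ) : ℤ))) (Kfull n p)
        (by
          intro x hx
          rw [Kfull, Finset.mem_image] at hx
          obtain ⟨k, hk, rfl⟩ := hx
          rw [Finset.mem_Icc] at hk
          exact hD2 hp.pos (by omega))
        (by rw [hcst, h20]; exact zpow_le_zpow_right₀ hpQ (by simp))
        (by
          intro k hk
          rw [Finset.mem_Icc] at hk
          by_cases hkf : kap n p k ∈ Kfull n p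
          · exact Or.inl hkf
          · right
            have hk1 : k < 2 * n + 1 + p := by
              by_contra hcon
              exact hkf (Finset.mem_image_of_mem _ (Finset.mem_Icc.mpr ⟨by omega, hk.2⟩))
            refine ⟨hk1, ?_⟩
            intro k' hk' hne hdvd
            rw [Finset.mem_Icc] at hk'
            obtain ⟨c, hc⟩ := hdvd
            have hc1 : c = 1 ∨ c = -1 := by
              have hpz : (15 * n : ℤ) ≤ 2 * p := by exact_mod_cast (not_lt.mp h5)
              have h1 : (k' : ℤ) - k ≤ 10 * n := by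
                have : (k' : ℤ) ≤ 13 * n := by exact_mod_cast hk'.2
                have : (3 * n : ℤ) ≤ k := by exact_mod_cast hk.1
                linarith
              have h2 : -(10 * n : ℤ) ≤ (k' : ℤ) - k := by
                have : (k : ℤ) ≤ 13 * n := by exact_mod_cast hk.2
                have : (3 * n : ℤ) ≤ k' := by exact_mod_cast hk'.1
                linarith
              have hn0 : (0 : ℤ) < n := by exact_mod_cast (by omega : 0 < n)
              have hc0 : c ≠ 0 := by
                rintro rfl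
                rw [mul_zero] at hc
                exact hne (by exact_mod_cast (sub_eq_zero.mp hc))
              have hc2 : c < 2 := by
                by_contra hcon
                have : 2 ≤ c := by omega
                nlinarith
              have hc3 : -2 < c := by
                by_contra hcon
                have : c ≤ -2 := by omega
                nlinarith
              omega
            rcases hc1 with rfl | rfl
            · have hkk : k' = k + p := by
                have : (k' : ℤ) = k + p := by linarith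
                exact_mod_cast this
              apply hkf
              have e : kap n p k = kap n p k' := by
                rw [kap, kap, hkk, Nat.add_mod_right]
                congr 1
                have : 16 * n - k = (16 * n - (k + p)) + p := by omega
                rw [this, Nat.add_mod_right]
              rw [e]
              exact Finset.mem_image_of_mem _ (Finset.mem_Icc.mpr ⟨by omega, hk'.2⟩)
            · have hkk : k = k' + p := by
                have : (k : ℤ) = k' + p := by linarith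
                exact_mod_cast this
              omega)
      refine to_rpow hp1 h3 ?_
      have h4 := hKC n p hp hn (by omega) h7 hp2 _ rfl
      refine h4.trans ?_
      rw [EW, if_neg (by omega), if_neg h5, if_pos h7]
      have : KC ≤ max (max KA KB) (max KC 0) := (le_max_left KC 0).trans (le_max_right _ _)
      linarith
    · rw [if_neg h7]
      have h20 : 2 * n / p = 0 := Nat.div_eq_of_lt (by omega)
      have h60 : 10 * n / p = 0 := Nat.div_eq_of_lt (by omega)
      have h80 : 8 * n / p = 0 := Nat.div_eq_of_lt (by omega)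
      have h3 := hD3 n p (by omega) hp2 q u hu (18 * (n - 1)) 0 ∅ (Finset.empty_subset _)
        (by rw [hcst, h20, h60, h80]; simp)
        (by
          intro k hk
          rw [Finset.mem_Icc] at hk
          right
          refine ⟨by omega, ?_⟩
          intro k' hk' hne hdvd
          rw [Finset.mem_Icc] at hk'
          have h0 : (k' : ℤ) - k = 0 := by
            apply Int.eq_zero_of_abs_lt_dvd hdvd
            rw [abs_lt]
            have h1 : (11 * n : ℤ) ≤ p := by exact_mod_cast (not_lt.mp h7)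
            have h2 : (k' : ℤ) ≤ 13 * n := by exact_mod_cast hk'.2
            have h3 : (3 * n : ℤ) ≤ k := by exact_mod_cast hk.1
            have h4 : (k : ℤ) ≤ 13 * n := by exact_mod_cast hk.2
            have h5 : (3 * n : ℤ) ≤ k' := by exact_mod_cast hk'.1
            have hn0 : (0 : ℤ) < n := by exact_mod_cast (by omega : 0 < n)
            constructor <;> linarith
          exact hne (by exact_mod_cast (sub_eq_zero.mp h0)))
      have h4 : padicNorm p ((q : ℚ) ^ (18 * (n - 1)) * DET n u (18 * (n - 1))) ≤ 1 := by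
        simpa using h3
      exact_mod_cast h4

end

end Pool.Agent.Run7.h6.ZW
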