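import Pool.Agent.Run7.h6.ZW.Defs

/-!
The four limits `LA`, `LB`, `LC`, `LU` (rational numbers).
-/

namespace Pool.Agent.Run7.h6.ZW

noncomputable section

/-- the limits -/
def LA : ℚ := 90 * (2 - 1 / 20) - 108 * Ifl 10 (1 / 20) 2 - 72 * Ifl 8 (1 / 20) 2 + 180 * Ifl 2 (1 / 20) 2 +
  (9 * (10 * (2 - 1 / 20) + 2 * ∑ j ∈ J, It 10 j (1 / 20) 2)
    + 12 * (8 * (2 - 1 / 20) + 2 * ∑ j ∈ J, (It 9 j (1 / 20) 2 - It 1 j (1 / 20) 2))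
    + 4 * (8 * (2 - 1 / 20) + 2 * ∑ j ∈ J, It 8 j (1 / 20) 2)
    - 30 * ∑ j ∈ J, (It 13 j (1 / 20) 2 + It 1 j (1 / 20) 2 - It 11 j (1 / 20) 2 - It 3 j (1 / 20) 2)
    - 20 * ∑ j ∈ J, (It 12 j (1 / 20) 2 + It 2 j (1 / 20) 2 - It 10 j (1 / 20) 2 - It 4 j (1 / 20) 2)
    + 25 / 4 * (4 * (2 - 1 / 20) + 4 * ∑ j ∈ J, It 2 j (1 / 20) 2
      + 2 * ∑ j ∈ J, (It 16 j (1 / 20) 2 - 2 * It 14 j (1 / 20) 2 + It 12 j (1 / 20) 2))) / 2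

def LB : ℚ := 90 * (11 / 2) - 108 * Ifl 10 2 (15 / 2) - 72 * Ifl 8 2 (15 / 2) +
  (9 * (10 * (11 / 2) + 2 * ∑ j ∈ J, It 10 j 2 (15 / 2))
    + 12 * (8 * (11 / 2) + 2 * ∑ j ∈ J, (It 9 j 2 (15 / 2) - It 1 j 2 (15 / 2)))
    + 4 * (8 * (11 / 2) + 2 * ∑ j ∈ J, It 8 j 2 (15 / 2))
    - 30 * ∑ j ∈ J, (It 13 j 2 (15 / 2) + It 1 j 2 (15 / 2) - It 11 j 2 (15 / 2) - It 3 j 2 (15 / 2))
    - 20 * ∑ j ∈ J, (It 12 j 2 (15 / 2) + It 2 j 2 (15 / 2) - It 10 j 2 (15 / 2) - It 4 j 2 (15 / 2))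
    + (24 * (11 / 2) + 13 * ∑ j ∈ J, (It 16 j 2 (15 / 2) - 2 * It 14 j 2 (15 / 2) + It 12 j 2 (15 / 2)))) / 2

def LC : ℚ := - 108 * Ifl 10 (15 / 2) 11 - 72 * Ifl 8 (15 / 2) 11 + 30 * It 11 1 (15 / 2) 11 +
  32 * It 10 1 (15 / 2) 11 + 12 * It 9 1 (15 / 2) 11 + 4 * It 8 1 (15 / 2) 11

def LU : ℚ := ∑ j ∈ J, It 36 j (1 / 20) 36

end

end Pool.Agent.Run7.h6.ZW
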