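import Pool.Agent.Run7.h6.ZW.DefsG
import Pool.Agent.H343Y.G1c

/-!
# Task G1c: the constant
-/

open Polynomial Pool.Agent.H337R2

namespace Pool.Agent.Run7.h6.ZW

noncomputable section

open Pool.Agent.H343Y.G1cAux (fac_up fac_lo fac_shift)

lemma G1c_cst_eq (n : ℕ) : ((cstN n : ℚ) : ℝ) =
    ((10 * n).factorial : ℝ) ^ 6 * ((8 * n).factorial : ℝ) ^ 4 / ((2 * n).factorial : ℝ) ^ 10 := by
  unfold cstN ds10 cst
  simp only [List.map_cons, List.map_nil, List.prod_cons, List.prod_nil]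
  push_cast
  norm_num
  congr 1
  ring

/-- upper bound of a factorial -/
lemma G1c_up (N n a b : ℕ) (ha : 1 ≤ a) (hN : 1 ≤ N) (hn1 : 1 ≤ n) (h1 : a * N + b ≤ b * n) :
    ((a * N + b).factorial : ℝ) ≤ Real.exp 1 * (b : ℝ) ^ (b + 1) * (n : ℝ) ^ (b + 1) *
      Real.exp (xl ((a * N : ℕ) : ℝ) - ((a * N : ℕ) : ℝ)) := by
  have hn0 : (1 : ℝ) ≤ n := by exact_mod_cast hn1
  have h2 := fac_shift (a * N) b
  have h3 := fac_up (a * N) (Nat.mul_pos ha hN)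
  have h4 : ((a * N : ℕ) : ℝ) ≤ b * n := by
    have : a * N ≤ b * n := by omega
    exact_mod_cast this
  have h6 : ((a * N + b : ℕ) : ℝ) ≤ b * n := by exact_mod_cast h1
  have h5 : ((a * N).factorial : ℝ) ≤
      Real.exp 1 * (b * n) * Real.exp (xl ((a * N : ℕ) : ℝ) - ((a * N : ℕ) : ℝ)) := by
    refine h3.trans ?_
    have : Real.exp 1 * ((a * N : ℕ) : ℝ) ≤ Real.exp 1 * (b * n) :=
      mul_le_mul_of_nonneg_left h4 (by positivity)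
    exact mul_le_mul_of_nonneg_right this (by positivity)
  calc ((a * N + b).factorial : ℝ) ≤ ((a * N + b : ℕ) : ℝ) ^ b * ((a * N).factorial : ℝ) := h2
    _ ≤ (b * n) ^ b * (Real.exp 1 * (b * n) *
          Real.exp (xl ((a * N : ℕ) : ℝ) - ((a * N : ℕ) : ℝ))) := by
        refine mul_le_mul (pow_le_pow_left₀ (by positivity) h6 _) h5 (by positivity) (by positivity)
    _ = _ := by rw [mul_pow, pow_succ (b : ℝ) b, pow_succ (n : ℝ) b]; ring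

/-- the constant -/
theorem G1_cst : ∃ (C : ℝ) (K : ℕ), 0 < C ∧ ∀ N : ℕ, 1 ≤ N → ∀ n : ℕ, n = 24 * N + 1 →
    ((cstN n : ℚ) : ℝ) ^ 2 ≤ C * (n : ℝ) ^ K * Real.exp (Lam * N) * (N : ℝ) ^ (3456 * N) := by
  refine ⟨(Real.exp 1 * ((10 : ℕ) : ℝ) ^ (10 + 1)) ^ 12 * (Real.exp 1 * ((8 : ℕ) : ℝ) ^ (8 + 1)) ^ 8,
    11 * 12 + 9 * 8, by positivity, fun N hN n hn => ?_⟩
  have hN0 : (0 : ℝ) < N := by exact_mod_cast hN
  have hn0 : (1 : ℝ) ≤ n := by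
    have : 1 ≤ n := by omega
    exact_mod_cast this
  rw [G1c_cst_eq, div_pow, mul_pow, ← pow_mul, ← pow_mul, ← pow_mul]
  have h1 := G1c_up N n 240 10 (by norm_num) hN (by omega) (by omega)
  have h1' := G1c_up N n 192 8 (by norm_num) hN (by omega) (by omega)
  have e1 : 240 * N + 10 = 10 * n := by omega
  have e1' : 192 * N + 8 = 8 * n := by omega
  rw [e1] at h1
  rw [e1'] at h1'
  have h2 : Real.exp (xl ((48 * N : ℕ) : ℝ) - ((48 * N : ℕ) : ℝ)) ≤ ((2 * n).factorial : ℝ) := by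
    refine (fac_lo (48 * N)).trans ?_
    have : (48 * N).factorial ≤ (2 * n).factorial := Nat.factorial_le (by omega)
    exact_mod_cast this
  have h4 : ((10 * n).factorial : ℝ) ^ (6 * 2) * ((8 * n).factorial : ℝ) ^ (4 * 2) /
      ((2 * n).factorial : ℝ) ^ (10 * 2) ≤
      (Real.exp 1 * ((10 : ℕ) : ℝ) ^ (10 + 1) * (n : ℝ) ^ (10 + 1) *
      Real.exp (xl ((240 * N : ℕ) : ℝ) - ((240 * N : ℕ) : ℝ))) ^ (6 * 2) *
      (Real.exp 1 * ((8 : ℕ) : ℝ) ^ (8 + 1) * (n : ℝ) ^ (8 + 1) *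
      Real.exp (xl ((192 * N : ℕ) : ℝ) - ((192 * N : ℕ) : ℝ))) ^ (4 * 2) /
      (Real.exp (xl ((48 * N : ℕ) : ℝ) - ((48 * N : ℕ) : ℝ))) ^ (10 * 2) :=
    div_le_div₀ (by positivity) (mul_le_mul (pow_le_pow_left₀ (by positivity) h1 _)
      (pow_le_pow_left₀ (by positivity) h1' _) (by positivity) (by positivity)) (by positivity)
      (pow_le_pow_left₀ (by positivity) h2 _)
  refine h4.trans (le_of_eq ?_)
  have e3 : ((N : ℝ)) ^ (3456 * N) = Real.exp (3456 * N * Real.log N) := by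
    rw [show (3456 : ℝ) * (N : ℝ) * Real.log N = Real.log N * ((3456 * N : ℕ) : ℝ) by
      push_cast; ring, Real.exp_mul, Real.exp_log hN0, Real.rpow_natCast]
  have e5 : ((6 * 2 : ℕ) : ℝ) * (xl ((240 * N : ℕ) : ℝ) - ((240 * N : ℕ) : ℝ)) +
        ((4 * 2 : ℕ) : ℝ) * (xl ((192 * N : ℕ) : ℝ) - ((192 * N : ℕ) : ℝ)) -
        ((10 * 2 : ℕ) : ℝ) * (xl ((48 * N : ℕ) : ℝ) - ((48 * N : ℕ) : ℝ)) =
      Lam * N + 3456 * N * Real.log N := by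
    unfold xl Lam
    push_cast
    rw [Real.log_mul (by norm_num) hN0.ne', Real.log_mul (by norm_num) hN0.ne',
      Real.log_mul (by norm_num) hN0.ne']
    ring
  rw [mul_pow _ (Real.exp (xl ((240 * N : ℕ) : ℝ) - ((240 * N : ℕ) : ℝ))),
    mul_pow _ (Real.exp (xl ((192 * N : ℕ) : ℝ) - ((192 * N : ℕ) : ℝ))),
    ← Real.exp_nat_mul (xl ((240 * N : ℕ) : ℝ) - ((240 * N : ℕ) : ℝ)),
    ← Real.exp_nat_mul (xl ((192 * N : ℕ) : ℝ) - ((192 * N : ℕ) : ℝ)),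
    ← Real.exp_nat_mul (xl ((48 * N : ℕ) : ℝ) - ((48 * N : ℕ) : ℝ)), e3]
  have e6 : ∀ A B : ℝ, A * Real.exp (((6 * 2 : ℕ) : ℝ) * (xl ((240 * N : ℕ) : ℝ) - ((240 * N : ℕ) : ℝ))) *
      (B * Real.exp (((4 * 2 : ℕ) : ℝ) * (xl ((192 * N : ℕ) : ℝ) - ((192 * N : ℕ) : ℝ)))) /
      Real.exp (((10 * 2 : ℕ) : ℝ) * (xl ((48 * N : ℕ) : ℝ) - ((48 * N : ℕ) : ℝ))) =
      A * B * (Real.exp (Lam * N) * Real.exp (3456 * N * Real.log N)) := by
    intro A B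
    rw [← Real.exp_add (Lam * N), ← e5, Real.exp_sub, Real.exp_add]
    ring
  rw [e6, mul_pow _ ((n : ℝ) ^ (10 + 1)), mul_pow _ ((n : ℝ) ^ (8 + 1)), ← pow_mul (n : ℝ),
    ← pow_mul (n : ℝ), pow_add (n : ℝ)]
  ring

end

end Pool.Agent.Run7.h6.ZW
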