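import Pool.Agent.Run7.h6.ZW.DefsS
import Pool.Agent.H343Y.G4eAux

/-!
# Bounds of the entries: bookkeeping (the general part is `H343Y.G4eAux`)
-/

open Polynomial Pool.Agent.H337R2

namespace Pool.Agent.Run7.h6.ZW

noncomputable section

namespace G4eAux

export Pool.Agent.H343Y.G4eAux (stage prod_bound sum_e e_anti Qb_nonneg qd_nonneg qd_pos prodqd_nonneg
  one_le_xv pow_eq_exp)

theorem Q1_nonneg (c : ℚ) (s : ℕ) (ρ : ℝ) : 0 ≤ Q1 c s ρ :=
  Finset.prod_nonneg fun _ _ => pow_nonneg (Qb_nonneg _ _ _ _) _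

theorem GZ0_nonneg (ρ : ℝ) : 0 ≤ GZ0 ρ := by
  unfold GZ0
  exact mul_nonneg (pow_nonneg (prodqd_nonneg _ _ _) _) (pow_nonneg (prodqd_nonneg _ _ _) _)

theorem GP0_pos {ρ : ℝ} (hρ : 0 ≤ ρ) : 0 < GP0 ρ := by
  unfold GP0
  have h1 : 0 < ∏ a ∈ Finset.Ico (73 : ℕ) 312, qd ((a : ℕ) : ℝ) ρ := by
    apply Finset.prod_pos
    intro a ha
    apply qd_pos _ hρ
    have := (Finset.mem_Ico.1 ha).1
    have : (73 : ℝ) ≤ a := by exact_mod_cast this
    linarith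
  have h2 : 0 < ∏ a ∈ Finset.Ico (97 : ℕ) 288, qd ((a : ℕ) : ℝ) ρ := by
    apply Finset.prod_pos
    intro a ha
    apply qd_pos _ hρ
    have := (Finset.mem_Ico.1 ha).1
    have : (97 : ℝ) ≤ a := by exact_mod_cast this
    linarith
  exact mul_pos (mul_pos (mul_pos (pow_pos (qd_pos (by norm_num) hρ) _) (pow_pos h1 _))
    (pow_pos (qd_pos (by norm_num) hρ) _)) (mul_pos (mul_pos (pow_pos (qd_pos (by norm_num) hρ) _)
    (pow_pos h2 _)) (pow_pos (qd_pos (by norm_num) hρ) _))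

end G4eAux

end

end Pool.Agent.Run7.h6.ZW
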