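import Pool.Agent.Run7.h6.ZW.DefsS
import Pool.Agent.H343Y.G5

/-!
# G5: the numerical value of the archimedean constant
-/

namespace Pool.Agent.Run7.h6.ZW

theorem G5_JJ : JJ ≤ 1264 / 10 := by
  have h2 := Real.log_two_lt_d9
  have h2' := Real.log_two_gt_d9
  have h3 := Pool.Agent.H343Y.G5_log3
  have h5 := Pool.Agent.H343Y.G5_log5
  have h240 : Real.log 240 = 4 * Real.log 2 + Real.log 3 + Real.log 5 := by
    rw [show (240 : ℝ) = 2 ^ 4 * 3 * 5 by norm_num, Real.log_mul (by norm_num) (by norm_num),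
      Real.log_mul (by norm_num) (by norm_num), Real.log_pow]
    norm_num
  have h192 : Real.log 192 = 6 * Real.log 2 + Real.log 3 := by
    rw [show (192 : ℝ) = 2 ^ 6 * 3 by norm_num, Real.log_mul (by norm_num) (by norm_num),
      Real.log_pow]
    norm_num
  have h48 : Real.log 48 = 4 * Real.log 2 + Real.log 3 := by
    rw [show (48 : ℝ) = 2 ^ 4 * 3 by norm_num, Real.log_mul (by norm_num) (by norm_num),
      Real.log_pow]
    norm_num
  have h24 : Real.log 24 = 3 * Real.log 2 + Real.log 3 := by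
    rw [show (24 : ℝ) = 2 ^ 3 * 3 by norm_num, Real.log_mul (by norm_num) (by norm_num),
      Real.log_pow]
    norm_num
  unfold JJ Lam
  rw [h240, h192, h48, h24]
  norm_num at h3 h5 h2 h2' ⊢
  linarith

end Pool.Agent.Run7.h6.ZW
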